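import Mathlib

/-!
Sector lemma for a positive diagonal matrix which is accretive for a real symmetric matrix `B`
(helper53).  No contour integral and no exact constant is used.
-/

open Finset Complex MeasureTheory Set Filter Topology

namespace RFS53

variable {ι : Type*} [Fintype ι]

/-- the form `∑ D_j w_j conj(w_k) B(j,k)` -/
noncomputable def zeta (B : ι → ι → ℝ) (D : ι → ℝ) (w : ι → ℂ) : ℂ :=
  ∑ j, ∑ k, ((D j : ℝ) : ℂ) * w j * (starRingEnd ℂ) (w k) * ((B j k : ℝ) : ℂ)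

/-- `e^{ia} D` is (strictly) accretive for `B` -/
def Acc (B : ι → ι → ℝ) (a : ℝ) (D : ι → ℝ) : Prop :=
  ∀ w : ι → ℂ, w ≠ 0 → 0 < (cexp (a * I) * zeta B D w).re

lemma zeta_conj (B : ι → ι → ℝ) (D : ι → ℝ) (w : ι → ℂ) :
    zeta B D (fun j => (starRingEnd ℂ) (w j)) = (starRingEnd ℂ) (zeta B D w) := by
  unfold zeta
  rw [map_sum]
  refine Finset.sum_congr rfl fun j _ => ?_
  rw [map_sum]
  refine Finset.sum_congr rfl fun k _ => ?_
  simp only [map_mul, Complex.conj_conj, Complex.conj_ofReal]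

lemma Acc.neg {B : ι → ι → ℝ} {a : ℝ} {D : ι → ℝ} (h : Acc B a D) : Acc B (-a) D := by
  intro w hw
  have hw' : (fun j => (starRingEnd ℂ) (w j)) ≠ 0 := by
    intro h0
    apply hw
    funext j
    have := congrFun h0 j
    simpa using this
  have h1 := h _ hw'
  rw [zeta_conj] at h1
  have h2 : cexp (((-a : ℝ) : ℂ) * I) * zeta B D w
      = (starRingEnd ℂ) (cexp (a * I) * (starRingEnd ℂ) (zeta B D w)) := by
    rw [map_mul, Complex.conj_conj, ← Complex.exp_conj, map_mul, Complex.conj_I,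
      Complex.conj_ofReal]
    congr 2
    push_cast
    ring
  rw [h2, Complex.conj_re]
  exact h1

/-- a Hermitian form with real symmetric matrix is real -/
lemma herm_im {B : ι → ι → ℝ} (hB : ∀ j k, B j k = B k j) (v : ι → ℂ) :
    (∑ j, ∑ k, v j * (starRingEnd ℂ) (v k) * ((B j k : ℝ) : ℂ)).im = 0 := by
  have h : (starRingEnd ℂ) (∑ j, ∑ k, v j * (starRingEnd ℂ) (v k) * ((B j k : ℝ) : ℂ))
      = ∑ j, ∑ k, v j * (starRingEnd ℂ) (v k) * ((B j k : ℝ) : ℂ) := by
    rw [map_sum]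
    rw [Finset.sum_comm]
    refine Finset.sum_congr rfl fun j _ => ?_
    rw [map_sum]
    refine Finset.sum_congr rfl fun k _ => ?_
    simp only [map_mul, Complex.conj_conj, Complex.conj_ofReal]
    rw [hB k j]
    ring
  exact Complex.conj_eq_iff_im.mp h

/-- positivity by integration of a decaying exponential sum -/
lemma pos_of_flow (M : ι → ι → ℂ) (u : ι → ℂ) (hu : ∀ j, 0 < (u j).re)
    (h : ∀ τ : ℝ, 0 < (∑ j, ∑ k, (u j + (starRingEnd ℂ) (u k)) * (M j k *
      cexp (-((τ : ℂ) * (u j + (starRingEnd ℂ) (u k)))))).re) :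
    0 < (∑ j, ∑ k, M j k).re := by
  set G : ℝ → ℝ := fun τ => (∑ j, ∑ k, M j k *
      cexp (-((τ : ℂ) * (u j + (starRingEnd ℂ) (u k))))).re with hG
  have hd : ∀ τ : ℝ, HasDerivAt G (-(∑ j, ∑ k, (u j + (starRingEnd ℂ) (u k)) * (M j k *
      cexp (-((τ : ℂ) * (u j + (starRingEnd ℂ) (u k)))))).re) τ := by
    intro τ
    have h1 : HasDerivAt (fun τ : ℝ => ∑ j, ∑ k, M j k *
        cexp (-((τ : ℂ) * (u j + (starRingEnd ℂ) (u k)))))
        (∑ j, ∑ k, -((u j + (starRingEnd ℂ) (u k)) * (M j k *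
          cexp (-((τ : ℂ) * (u j + (starRingEnd ℂ) (u k))))))) τ := by
      refine HasDerivAt.fun_sum fun j _ => HasDerivAt.fun_sum fun k _ => ?_
      set c := u j + (starRingEnd ℂ) (u k)
      have h2 : HasDerivAt (fun τ : ℝ => -((τ : ℂ) * c)) (-(1 * c)) τ :=
        ((Complex.ofRealCLM.hasDerivAt (x := τ)).mul_const c).neg
      have h3 := (h2.cexp).const_mul (M j k)
      have h3' : M j k * (cexp (-((τ : ℂ) * c)) * -(1 * c)) = -(c * (M j k * cexp (-((τ : ℂ) * c)))) := by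
        ring
      rw [h3'] at h3
      exact h3
    have h4 := (Complex.reCLM.hasFDerivAt.comp_hasDerivAt τ h1)
    have h5 : (Complex.reCLM (∑ j, ∑ k, -((u j + (starRingEnd ℂ) (u k)) * (M j k *
          cexp (-((τ : ℂ) * (u j + (starRingEnd ℂ) (u k)))))))) =
        -(∑ j, ∑ k, (u j + (starRingEnd ℂ) (u k)) * (M j k *
      cexp (-((τ : ℂ) * (u j + (starRingEnd ℂ) (u k)))))).re := by
      simp only [Finset.sum_neg_distrib, Complex.reCLM_apply, Complex.neg_re]
    rw [h5] at h4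
    exact h4
  have hanti : StrictAnti G := strictAnti_of_hasDerivAt_neg hd (fun τ => by
    have := h τ
    linarith)
  have hlim : Tendsto G atTop (𝓝 0) := by
    have h1 : Tendsto (fun τ : ℝ => ∑ j, ∑ k, M j k *
        cexp (-((τ : ℂ) * (u j + (starRingEnd ℂ) (u k))))) atTop (𝓝 (∑ j : ι, ∑ k : ι, M j k * 0)) := by
      refine tendsto_finsetSum _ fun j _ => tendsto_finsetSum _ fun k _ => ?_
      refine Tendsto.const_mul _ ?_
      rw [tendsto_zero_iff_norm_tendsto_zero]
      have h2 : (fun τ : ℝ => ‖cexp (-((τ : ℂ) * (u j + (starRingEnd ℂ) (u k))))‖)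
          = fun τ : ℝ => Real.exp (-(τ * ((u j).re + (u k).re))) := by
        funext τ
        rw [Complex.norm_exp]
        congr 1
        simp
      rw [h2]
      have h3 : 0 < (u j).re + (u k).re := add_pos (hu j) (hu k)
      exact Real.tendsto_exp_neg_atTop_nhds_zero.comp (tendsto_id.atTop_mul_const h3)
    have h2 : Tendsto (fun τ : ℝ => (∑ j, ∑ k, M j k *
        cexp (-((τ : ℂ) * (u j + (starRingEnd ℂ) (u k))))).re) atTop
        (𝓝 ((∑ j : ι, ∑ k : ι, M j k * 0).re)) :=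
      (Complex.continuous_re.tendsto _).comp h1
    have h3 : (∑ j : ι, ∑ k : ι, M j k * 0).re = 0 := by simp
    rw [h3] at h2
    exact h2
  have h0 : 0 ≤ G 1 := hanti.antitone.le_of_tendsto hlim 1
  have h1 : G 1 < G 0 := hanti (by norm_num)
  have h2 : G 0 = (∑ j, ∑ k, M j k).re := by simp [hG]
  linarith

/-- `B` itself is positive definite if `T` is accretive -/
lemma pos_of_acc {B : ι → ι → ℝ} (hB : ∀ j k, B j k = B k j) {T : ι → ℝ} (hT : ∀ j, 0 < T j)
    (h : Acc B 0 T) (w : ι → ℂ) (hw : w ≠ 0) :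
    0 < (∑ j, ∑ k, w j * (starRingEnd ℂ) (w k) * ((B j k : ℝ) : ℂ)).re := by
  refine pos_of_flow (fun j k => w j * (starRingEnd ℂ) (w k) * ((B j k : ℝ) : ℂ))
    (fun j => ((T j : ℝ) : ℂ)) (fun j => by simpa using hT j) (fun τ => ?_)
  set W : ι → ℂ := fun j => w j * cexp (-((τ : ℂ) * ((T j : ℝ) : ℂ))) with hW
  have hW0 : W ≠ 0 := by
    intro h0
    apply hw
    funext j
    have := congrFun h0 j
    simp only [hW, Pi.zero_apply, mul_eq_zero, Complex.exp_ne_zero, or_false] at this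
    simpa using this
  have h1 := h W hW0
  simp only [Complex.ofReal_zero, zero_mul, Complex.exp_zero, one_mul] at h1
  have h2 : (∑ j, ∑ k, (((T j : ℝ) : ℂ) + (starRingEnd ℂ) ((T k : ℝ) : ℂ)) *
      (w j * (starRingEnd ℂ) (w k) * ((B j k : ℝ) : ℂ) *
      cexp (-((τ : ℂ) * (((T j : ℝ) : ℂ) + (starRingEnd ℂ) ((T k : ℝ) : ℂ))))))
      = zeta B T W + (starRingEnd ℂ) (zeta B T W) := by
    have h3 : (starRingEnd ℂ) (zeta B T W) = ∑ j, ∑ k, ((T k : ℝ) : ℂ) * W j *
        (starRingEnd ℂ) (W k) * ((B j k : ℝ) : ℂ) := by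
      unfold zeta
      rw [map_sum]
      rw [Finset.sum_comm]
      refine Finset.sum_congr rfl fun j _ => ?_
      rw [map_sum]
      refine Finset.sum_congr rfl fun k _ => ?_
      simp only [map_mul, Complex.conj_conj, Complex.conj_ofReal]
      rw [hB k j]
      ring
    rw [h3]
    unfold zeta
    rw [← Finset.sum_add_distrib]
    refine Finset.sum_congr rfl fun j _ => ?_
    rw [← Finset.sum_add_distrib]
    refine Finset.sum_congr rfl fun k _ => ?_
    have h4 : cexp (-((τ : ℂ) * (((T j : ℝ) : ℂ) + (starRingEnd ℂ) ((T k : ℝ) : ℂ))))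
        = cexp (-((τ : ℂ) * ((T j : ℝ) : ℂ))) *
          (starRingEnd ℂ) (cexp (-((τ : ℂ) * ((T k : ℝ) : ℂ)))) := by
      rw [← Complex.exp_conj, ← Complex.exp_add]
      congr 1
      simp only [map_neg, map_mul, Complex.conj_ofReal]
      ring
    rw [h4]
    simp only [hW, map_mul, Complex.conj_ofReal]
    ring
  rw [h2, Complex.add_re, Complex.conj_re]
  linarith

/-- ROOT STEP -/
theorem acc_sqrt {B : ι → ι → ℝ} (hB : ∀ j k, B j k = B k j) {a : ℝ} (ha0 : 0 ≤ a)
    (ha : a < Real.pi / 2) {s : ι → ℝ} (hs : ∀ j, 0 < s j)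
    (h : Acc B a (fun j => s j ^ 2)) : Acc B (a / 2 + Real.pi / 4) s := by
  intro w hw
  set e1 : ℂ := cexp ((a / 2 - Real.pi / 4 : ℝ) * I) with he1
  have he1' : (starRingEnd ℂ) e1 = cexp (-((a / 2 - Real.pi / 4 : ℝ) * I)) := by
    rw [he1, ← Complex.exp_conj, map_mul, Complex.conj_I, Complex.conj_ofReal]
    congr 1
    ring
  have hre : 0 < e1.re := by
    rw [he1, Complex.exp_ofReal_mul_I_re]
    refine Real.cos_pos_of_mem_Ioo ⟨?_, ?_⟩ <;> linarith [Real.pi_pos]
  set E : ℂ := cexp ((a / 2 + Real.pi / 4 : ℝ) * I) with hE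
  have h5 : e1 * E = cexp (a * I) := by
    rw [he1, hE, ← Complex.exp_add]
    congr 1
    push_cast
    ring
  have h6 : (starRingEnd ℂ) e1 * E = I := by
    rw [he1', hE, ← Complex.exp_add]
    have : -((a / 2 - Real.pi / 4 : ℝ) * I) + (a / 2 + Real.pi / 4 : ℝ) * I
        = (Real.pi / 2 : ℂ) * I := by
      push_cast
      ring
    rw [this, Complex.exp_pi_div_two_mul_I]
  have hmain := pos_of_flow (ι := ι)
    (fun j k => E * (((s j : ℝ) : ℂ) * w j *
      (starRingEnd ℂ) (w k) * ((B j k : ℝ) : ℂ)))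
    (fun j => e1 * ((s j : ℝ) : ℂ))
    (fun j => by
      rw [Complex.re_mul_ofReal]
      exact mul_pos hre (hs j))
    (fun τ => by
      set W : ι → ℂ := fun j => w j * cexp (-((τ : ℂ) * (e1 * ((s j : ℝ) : ℂ)))) with hW
      have hW0 : W ≠ 0 := by
        intro h0
        apply hw
        funext j
        have := congrFun h0 j
        simp only [hW, Pi.zero_apply, mul_eq_zero, Complex.exp_ne_zero, or_false] at this
        simpa using this
      have h1 := h W hW0
      have h2 : (∑ j, ∑ k, (e1 * ((s j : ℝ) : ℂ) + (starRingEnd ℂ) (e1 * ((s k : ℝ) : ℂ))) *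
          (E * (((s j : ℝ) : ℂ) * w j *
            (starRingEnd ℂ) (w k) * ((B j k : ℝ) : ℂ)) *
            cexp (-((τ : ℂ) * (e1 * ((s j : ℝ) : ℂ) + (starRingEnd ℂ) (e1 * ((s k : ℝ) : ℂ)))))))
          = cexp (a * I) * zeta B (fun j => s j ^ 2) W
            + I * ∑ j, ∑ k, (((s j : ℝ) : ℂ) * W j) *
              (starRingEnd ℂ) (((s k : ℝ) : ℂ) * W k) * ((B j k : ℝ) : ℂ) := by
        unfold zeta
        rw [Finset.mul_sum, Finset.mul_sum, ← Finset.sum_add_distrib]
        refine Finset.sum_congr rfl fun j _ => ?_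
        rw [Finset.mul_sum, Finset.mul_sum, ← Finset.sum_add_distrib]
        refine Finset.sum_congr rfl fun k _ => ?_
        have h4 : cexp (-((τ : ℂ) * (e1 * ((s j : ℝ) : ℂ)
            + (starRingEnd ℂ) (e1 * ((s k : ℝ) : ℂ)))))
            = cexp (-((τ : ℂ) * (e1 * ((s j : ℝ) : ℂ)))) *
              (starRingEnd ℂ) (cexp (-((τ : ℂ) * (e1 * ((s k : ℝ) : ℂ))))) := by
          rw [← Complex.exp_conj, ← Complex.exp_add]
          congr 1
          simp only [map_neg, map_mul, Complex.conj_ofReal]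
          ring
        rw [h4]
        simp only [hW, map_mul, Complex.conj_ofReal]
        push_cast
        rw [← h5]
        linear_combination (((s j : ℝ) : ℂ) * ((s k : ℝ) : ℂ) * w j * (starRingEnd ℂ) (w k) *
          ((B j k : ℝ) : ℂ) * (cexp (-((τ : ℂ) * (e1 * ((s j : ℝ) : ℂ)))) *
              (starRingEnd ℂ) (cexp (-((τ : ℂ) * (e1 * ((s k : ℝ) : ℂ))))))) * h6
      rw [h2, Complex.add_re]
      have h3 := herm_im hB (fun j => ((s j : ℝ) : ℂ) * W j)
      rw [Complex.mul_re I, h3]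
      simp only [Complex.I_re, zero_mul, mul_zero, sub_zero, add_zero]
      exact h1)
  have h7 : E * zeta B s w
      = ∑ j, ∑ k, E * (((s j : ℝ) : ℂ) * w j *
      (starRingEnd ℂ) (w k) * ((B j k : ℝ) : ℂ)) := by
    unfold zeta
    rw [Finset.mul_sum]
    refine Finset.sum_congr rfl fun j _ => ?_
    rw [Finset.mul_sum]
  rw [h7]
  exact hmain

end RFS53
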