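import Mathlib
import Pool.Agent.RFS53.Sector

/-!
Powers between `0` and `1` keep the sector; the sector of `T^{-θ}`, `|θ| ≤ 1/8` (helper53).
-/

open Finset Complex MeasureTheory Set Filter Topology

namespace RFS53

variable {ι : Type*} [Fintype ι]

lemma zeta_re_eq (B : ι → ι → ℝ) (a : ℝ) (D : ι → ℝ) (w : ι → ℂ) :
    (cexp (a * I) * zeta B D w).re = ∑ j, D j * (cexp (a * I) * (w j * ∑ k,
      (starRingEnd ℂ) (w k) * ((B j k : ℝ) : ℂ))).re := by
  unfold zeta
  rw [Finset.mul_sum, Complex.re_sum]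
  refine Finset.sum_congr rfl fun j _ => ?_
  rw [← Complex.re_ofReal_mul]
  congr 1
  simp only [Finset.mul_sum]
  refine Finset.sum_congr rfl fun k _ => ?_
  ring

lemma zeta_resolvent (B : ι → ι → ℝ) {D : ι → ℝ} (hD : ∀ j, 0 < D j) {t : ℝ} (ht : 0 < t)
    (w : ι → ℂ) :
    zeta B (fun j => D j / (t + D j)) w
      = (t : ℂ) * zeta B D (fun j => w j / ((t + D j : ℝ) : ℂ))
        + ∑ j, ∑ k, (((D j : ℝ) : ℂ) * (w j / ((t + D j : ℝ) : ℂ))) *
          (starRingEnd ℂ) (((D k : ℝ) : ℂ) * (w k / ((t + D k : ℝ) : ℂ))) * ((B j k : ℝ) : ℂ) := by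
  unfold zeta
  rw [Finset.mul_sum, ← Finset.sum_add_distrib]
  refine Finset.sum_congr rfl fun j _ => ?_
  rw [Finset.mul_sum, ← Finset.sum_add_distrib]
  refine Finset.sum_congr rfl fun k _ => ?_
  have h1 : ((t + D j : ℝ) : ℂ) ≠ 0 := by
    rw [Complex.ofReal_ne_zero]
    linarith [hD j]
  have h2 : ((t + D k : ℝ) : ℂ) ≠ 0 := by
    rw [Complex.ofReal_ne_zero]
    linarith [hD k]
  simp only [map_mul, map_div₀, Complex.conj_ofReal]
  rw [Complex.ofReal_div]
  field_simp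
  push_cast
  ring

/-- STIELTJES STEP -/
theorem acc_rpow {B : ι → ι → ℝ} (hB : ∀ j k, B j k = B k j)
    (hpos : ∀ w : ι → ℂ, w ≠ 0 →
      0 < (∑ j, ∑ k, w j * (starRingEnd ℂ) (w k) * ((B j k : ℝ) : ℂ)).re)
    {a : ℝ} (ha0 : 0 ≤ a) (ha : a < Real.pi / 2) {D : ι → ℝ} (hD : ∀ j, 0 < D j)
    (h : Acc B a D) {β : ℝ} (hβ : β ∈ Set.Ioo (0 : ℝ) 1) :
    Acc B a (fun j => D j ^ β) := by
  intro w hw
  have hcos : 0 < Real.cos a := Real.cos_pos_of_mem_Ioo ⟨by linarith [Real.pi_pos], ha⟩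
  rw [zeta_re_eq]
  set R : ι → ℝ := fun j => (cexp (a * I) * (w j * ∑ k,
      (starRingEnd ℂ) (w k) * ((B j k : ℝ) : ℂ))).re with hR
  set C : ℝ := ∫ t in Ioi (0 : ℝ), Real.rpowIntegrand₀₁ β t 1 with hC
  have hCpos : 0 < C := Real.integral_rpowIntegrand₀₁_one_pos hβ
  have h1 : ∑ j, D j ^ β * R j
      = C⁻¹ * ∫ t in Ioi (0 : ℝ), ∑ j, Real.rpowIntegrand₀₁ β t (D j) * R j := by
    rw [MeasureTheory.integral_finset_sum]
    · rw [Finset.mul_sum]
      refine Finset.sum_congr rfl fun j _ => ?_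
      rw [MeasureTheory.integral_mul_const, ← mul_assoc,
        ← Real.rpow_eq_const_mul_integral hβ (hD j).le]
    · intro j _
      exact (Real.integrableOn_rpowIntegrand₀₁_Ioi hβ (hD j).le).mul_const _
  have hint : IntegrableOn (fun t => ∑ j, Real.rpowIntegrand₀₁ β t (D j) * R j) (Ioi (0 : ℝ)) := by
    refine MeasureTheory.integrable_finset_sum _ fun j _ => ?_
    exact (Real.integrableOn_rpowIntegrand₀₁_Ioi hβ (hD j).le).mul_const _
  have hpt : ∀ t ∈ Ioi (0 : ℝ), 0 < ∑ j, Real.rpowIntegrand₀₁ β t (D j) * R j := by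
    intro t ht
    have ht0 : 0 < t := ht
    have h2 : ∑ j, Real.rpowIntegrand₀₁ β t (D j) * R j
        = t ^ (β - 1) * ∑ j, D j / (t + D j) * R j := by
      rw [Finset.mul_sum]
      refine Finset.sum_congr rfl fun j _ => ?_
      rw [Real.rpowIntegrand₀₁_eq_pow_div hβ ht0.le (hD j).le]
      ring
    rw [h2]
    refine mul_pos (Real.rpow_pos_of_pos ht0 _) ?_
    have h3 := zeta_re_eq B a (fun j => D j / (t + D j)) w
    rw [← h3, zeta_resolvent B hD ht0 w]
    set v : ι → ℂ := fun j => w j / ((t + D j : ℝ) : ℂ) with hv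
    have hv0 : v ≠ 0 := by
      intro h0
      apply hw
      funext j
      have := congrFun h0 j
      have h1 : ((t + D j : ℝ) : ℂ) ≠ 0 := by
        rw [Complex.ofReal_ne_zero]
        linarith [hD j]
      simp only [hv, Pi.zero_apply, div_eq_zero_iff] at this
      rcases this with h | h
      · exact h
      · exact absurd h h1
    have hv1 : (fun j => ((D j : ℝ) : ℂ) * v j) ≠ 0 := by
      intro h0
      apply hv0
      funext j
      have := congrFun h0 j
      simp only [Pi.zero_apply, mul_eq_zero, Complex.ofReal_eq_zero] at this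
      rcases this with h | h
      · exact absurd h (hD j).ne'
      · exact h
    have h4 := h v hv0
    have h5 := hpos _ hv1
    have h6 := herm_im hB (fun j => ((D j : ℝ) : ℂ) * v j)
    rw [mul_add, Complex.add_re]
    have h7 : (cexp (a * I) * ((t : ℂ) * zeta B D v)).re = t * (cexp (a * I) * zeta B D v).re := by
      rw [← Complex.re_ofReal_mul]
      congr 1
      ring
    have h8 : (cexp (a * I) * ∑ j, ∑ k, (((D j : ℝ) : ℂ) * v j) *
          (starRingEnd ℂ) (((D k : ℝ) : ℂ) * v k) * ((B j k : ℝ) : ℂ)).re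
        = Real.cos a * (∑ j, ∑ k, (((D j : ℝ) : ℂ) * v j) *
          (starRingEnd ℂ) (((D k : ℝ) : ℂ) * v k) * ((B j k : ℝ) : ℂ)).re := by
      rw [Complex.mul_re, h6, Complex.exp_ofReal_mul_I_re]
      ring
    rw [h7, h8]
    exact add_pos (mul_pos ht0 h4) (mul_pos hcos h5)
  rw [h1]
  refine mul_pos (inv_pos.mpr hCpos) ?_
  rw [MeasureTheory.setIntegral_pos_iff_support_of_nonneg_ae]
  · have : (Function.support fun t => ∑ j, Real.rpowIntegrand₀₁ β t (D j) * R j) ∩ Ioi (0 : ℝ)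
        = Ioi (0 : ℝ) := by
      apply Set.inter_eq_right.mpr
      intro t ht
      exact (hpt t ht).ne'
    rw [this, Real.volume_Ioi]
    exact ENNReal.zero_lt_top
  · rw [Filter.EventuallyLE, MeasureTheory.ae_restrict_iff' measurableSet_Ioi]
    exact Filter.Eventually.of_forall fun t ht => (hpt t ht).le
  · exact hint

/-- `Re e^{±ia} z > 0` gives the argument bound -/
lemma arg_lt_of_re {a : ℝ} (ha0 : 0 ≤ a) (ha : a < Real.pi / 2) {z : ℂ}
    (h1 : 0 < (cexp (a * I) * z).re) (h2 : 0 < (cexp (((-a : ℝ) : ℂ) * I) * z).re) :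
    z ≠ 0 ∧ |z.arg| < Real.pi / 2 - a := by
  have hz : z ≠ 0 := by
    rintro rfl
    simp at h1
  refine ⟨hz, ?_⟩
  have hn : 0 < ‖z‖ := norm_pos_iff.mpr hz
  have hpol : ∀ b : ℝ, (cexp ((b : ℂ) * I) * z).re = ‖z‖ * Real.cos (b + z.arg) := by
    intro b
    have h3 : z = ‖z‖ * cexp (z.arg * I) := (Complex.norm_mul_exp_arg_mul_I z).symm
    have h4 : cexp ((b : ℂ) * I) * z = (‖z‖ : ℂ) * cexp (((b + z.arg : ℝ) : ℂ) * I) := by
      conv_lhs => rw [h3]
      rw [mul_left_comm, ← Complex.exp_add]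
      congr 2
      push_cast
      ring
    rw [h4, Complex.re_ofReal_mul, Complex.exp_ofReal_mul_I_re]
  rw [hpol] at h1 h2
  have c1 : 0 < Real.cos (a + z.arg) := (mul_pos_iff_of_pos_left hn).mp h1
  have c2 : 0 < Real.cos (-a + z.arg) := (mul_pos_iff_of_pos_left hn).mp h2
  have hle := Complex.arg_le_pi z
  have hgt := Complex.neg_pi_lt_arg z
  rw [abs_lt]
  constructor
  · by_contra hcon
    rw [not_lt] at hcon
    have : Real.cos (-a + z.arg) ≤ 0 := by
      rw [← Real.cos_neg]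
      refine Real.cos_nonpos_of_pi_div_two_le_of_le ?_ ?_ <;> linarith
    linarith
  · by_contra hcon
    rw [not_lt] at hcon
    have : Real.cos (a + z.arg) ≤ 0 := by
      refine Real.cos_nonpos_of_pi_div_two_le_of_le ?_ ?_ <;> linarith
    linarith

end RFS53
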