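import Mathlib
import Pool.Agent.RFS53.Stieltjes

/-!
Weak (non-strict) accretivity: root step and Stieltjes step; sector of `T^θ`, `|θ| ≤ 2^{-m}`
(helper53).
-/

open Finset Complex MeasureTheory Set Filter Topology

namespace RFS53

variable {ι : Type*} [Fintype ι]

/-- `e^{ia} D` is accretive for `B` (non-strict) -/
def AccW (B : ι → ι → ℝ) (a : ℝ) (D : ι → ℝ) : Prop :=
  ∀ w : ι → ℂ, 0 ≤ (cexp (a * I) * zeta B D w).re

/-- `B` is positive definite (complex form) -/
def PD (B : ι → ι → ℝ) : Prop :=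
  ∀ w : ι → ℂ, w ≠ 0 → 0 < (∑ j, ∑ k, w j * (starRingEnd ℂ) (w k) * ((B j k : ℝ) : ℂ)).re

lemma AccW.neg {B : ι → ι → ℝ} {a : ℝ} {D : ι → ℝ} (h : AccW B a D) : AccW B (-a) D := by
  intro w
  have h1 := h (fun j => (starRingEnd ℂ) (w j))
  rw [zeta_conj] at h1
  have h2 : cexp (((-a : ℝ) : ℂ) * I) * zeta B D w
      = (starRingEnd ℂ) (cexp (a * I) * (starRingEnd ℂ) (zeta B D w)) := by
    rw [map_mul, Complex.conj_conj, ← Complex.exp_conj, map_mul, Complex.conj_I,
      Complex.conj_ofReal]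
    congr 2
    push_cast
    ring
  rw [h2, Complex.conj_re]
  exact h1

/-- non-negativity by integration of a decaying exponential sum -/
lemma nonneg_of_flow (M : ι → ι → ℂ) (u : ι → ℂ) (hu : ∀ j, 0 < (u j).re)
    (h : ∀ τ : ℝ, 0 ≤ (∑ j, ∑ k, (u j + (starRingEnd ℂ) (u k)) * (M j k *
      cexp (-((τ : ℂ) * (u j + (starRingEnd ℂ) (u k)))))).re) :
    0 ≤ (∑ j, ∑ k, M j k).re := by
  set G : ℝ → ℝ := fun τ => (∑ j, ∑ k, M j k *
      cexp (-((τ : ℂ) * (u j + (starRingEnd ℂ) (u k))))).re with hG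
  have hd : ∀ τ : ℝ, HasDerivAt G (-(∑ j, ∑ k, (u j + (starRingEnd ℂ) (u k)) * (M j k *
      cexp (-((τ : ℂ) * (u j + (starRingEnd ℂ) (u k)))))).re) τ := by
    intro τ
    have h1 : HasDerivAt (fun τ : ℝ => ∑ j, ∑ k, M j k *
        cexp (-((τ : ℂ) * (u j + (starRingEnd ℂ) (u k)))))
        (∑ j, ∑ k, -((u j + (starRingEnd ℂ) (u k)) * (M j k *
          cexp (-((τ : ℂ) * (u j + (starRingEnd ℂ) (u k))))))) τ := by
      refine HasDerivAt.fun_sum fun j _ => HasDerivAt.fun_sum fun k _ => ?_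
      set c := u j + (starRingEnd ℂ) (u k)
      have h2 : HasDerivAt (fun τ : ℝ => -((τ : ℂ) * c)) (-(1 * c)) τ :=
        ((Complex.ofRealCLM.hasDerivAt (x := τ)).mul_const c).neg
      have h3 := (h2.cexp).const_mul (M j k)
      have h3' : M j k * (cexp (-((τ : ℂ) * c)) * -(1 * c)) = -(c * (M j k * cexp (-((τ : ℂ) * c)))) := by
        ring
      rw [h3'] at h3
      exact h3
    have h4 := (Complex.reCLM.hasFDerivAt.comp_hasDerivAt τ h1)
    have h5 : (Complex.reCLM (∑ j, ∑ k, -((u j + (starRingEnd ℂ) (u k)) * (M j k *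
          cexp (-((τ : ℂ) * (u j + (starRingEnd ℂ) (u k)))))))) =
        -(∑ j, ∑ k, (u j + (starRingEnd ℂ) (u k)) * (M j k *
      cexp (-((τ : ℂ) * (u j + (starRingEnd ℂ) (u k)))))).re := by
      simp only [Finset.sum_neg_distrib, Complex.reCLM_apply, Complex.neg_re]
    rw [h5] at h4
    exact h4
  have hanti : Antitone G := antitone_of_hasDerivAt_nonpos hd (fun τ => by
    have := h τ
    simp only [Pi.zero_apply]
    linarith)
  have hlim : Tendsto G atTop (𝓝 0) := by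
    have h1 : Tendsto (fun τ : ℝ => ∑ j, ∑ k, M j k *
        cexp (-((τ : ℂ) * (u j + (starRingEnd ℂ) (u k))))) atTop (𝓝 (∑ j : ι, ∑ k : ι, M j k * 0)) := by
      refine tendsto_finsetSum _ fun j _ => tendsto_finsetSum _ fun k _ => ?_
      refine Tendsto.const_mul _ ?_
      rw [tendsto_zero_iff_norm_tendsto_zero]
      have h2 : (fun τ : ℝ => ‖cexp (-((τ : ℂ) * (u j + (starRingEnd ℂ) (u k))))‖)
          = fun τ : ℝ => Real.exp (-(τ * ((u j).re + (u k).re))) := by
        funext τ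
        rw [Complex.norm_exp]
        congr 1
        simp
      rw [h2]
      have h3 : 0 < (u j).re + (u k).re := add_pos (hu j) (hu k)
      exact Real.tendsto_exp_neg_atTop_nhds_zero.comp (tendsto_id.atTop_mul_const h3)
    have h2 : Tendsto (fun τ : ℝ => (∑ j, ∑ k, M j k *
        cexp (-((τ : ℂ) * (u j + (starRingEnd ℂ) (u k))))).re) atTop
        (𝓝 ((∑ j : ι, ∑ k : ι, M j k * 0).re)) :=
      (Complex.continuous_re.tendsto _).comp h1
    have h3 : (∑ j : ι, ∑ k : ι, M j k * 0).re = 0 := by simp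
    rw [h3] at h2
    exact h2
  have h0 : 0 ≤ G 0 := hanti.le_of_tendsto hlim 0
  have h2 : G 0 = (∑ j, ∑ k, M j k).re := by simp [hG]
  linarith

/-- ROOT STEP, weak form -/
theorem accW_sqrt {B : ι → ι → ℝ} (hB : ∀ j k, B j k = B k j) {a : ℝ} (ha0 : 0 ≤ a)
    (ha : a < Real.pi / 2) {s : ι → ℝ} (hs : ∀ j, 0 < s j)
    (h : AccW B a (fun j => s j ^ 2)) : AccW B (a / 2 + Real.pi / 4) s := by
  intro w
  set e1 : ℂ := cexp ((a / 2 - Real.pi / 4 : ℝ) * I) with he1
  have he1' : (starRingEnd ℂ) e1 = cexp (-((a / 2 - Real.pi / 4 : ℝ) * I)) := by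
    rw [he1, ← Complex.exp_conj, map_mul, Complex.conj_I, Complex.conj_ofReal]
    congr 1
    ring
  have hre : 0 < e1.re := by
    rw [he1, Complex.exp_ofReal_mul_I_re]
    refine Real.cos_pos_of_mem_Ioo ⟨?_, ?_⟩ <;> linarith [Real.pi_pos]
  set E : ℂ := cexp ((a / 2 + Real.pi / 4 : ℝ) * I) with hE
  have h5 : e1 * E = cexp (a * I) := by
    rw [he1, hE, ← Complex.exp_add]
    congr 1
    push_cast
    ring
  have h6 : (starRingEnd ℂ) e1 * E = I := by
    rw [he1', hE, ← Complex.exp_add]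
    have : -((a / 2 - Real.pi / 4 : ℝ) * I) + (a / 2 + Real.pi / 4 : ℝ) * I
        = (Real.pi / 2 : ℂ) * I := by
      push_cast
      ring
    rw [this, Complex.exp_pi_div_two_mul_I]
  have hmain := nonneg_of_flow (ι := ι)
    (fun j k => E * (((s j : ℝ) : ℂ) * w j *
      (starRingEnd ℂ) (w k) * ((B j k : ℝ) : ℂ)))
    (fun j => e1 * ((s j : ℝ) : ℂ))
    (fun j => by
      rw [Complex.re_mul_ofReal]
      exact mul_pos hre (hs j))
    (fun τ => by
      set W : ι → ℂ := fun j => w j * cexp (-((τ : ℂ) * (e1 * ((s j : ℝ) : ℂ)))) with hW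
      have h1 := h W
      have h2 : (∑ j, ∑ k, (e1 * ((s j : ℝ) : ℂ) + (starRingEnd ℂ) (e1 * ((s k : ℝ) : ℂ))) *
          (E * (((s j : ℝ) : ℂ) * w j *
            (starRingEnd ℂ) (w k) * ((B j k : ℝ) : ℂ)) *
            cexp (-((τ : ℂ) * (e1 * ((s j : ℝ) : ℂ) + (starRingEnd ℂ) (e1 * ((s k : ℝ) : ℂ)))))))
          = cexp (a * I) * zeta B (fun j => s j ^ 2) W
            + I * ∑ j, ∑ k, (((s j : ℝ) : ℂ) * W j) *
              (starRingEnd ℂ) (((s k : ℝ) : ℂ) * W k) * ((B j k : ℝ) : ℂ) := by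
        unfold zeta
        rw [Finset.mul_sum, Finset.mul_sum, ← Finset.sum_add_distrib]
        refine Finset.sum_congr rfl fun j _ => ?_
        rw [Finset.mul_sum, Finset.mul_sum, ← Finset.sum_add_distrib]
        refine Finset.sum_congr rfl fun k _ => ?_
        have h4 : cexp (-((τ : ℂ) * (e1 * ((s j : ℝ) : ℂ)
            + (starRingEnd ℂ) (e1 * ((s k : ℝ) : ℂ)))))
            = cexp (-((τ : ℂ) * (e1 * ((s j : ℝ) : ℂ)))) *
              (starRingEnd ℂ) (cexp (-((τ : ℂ) * (e1 * ((s k : ℝ) : ℂ))))) := by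
          rw [← Complex.exp_conj, ← Complex.exp_add]
          congr 1
          simp only [map_neg, map_mul, Complex.conj_ofReal]
          ring
        rw [h4]
        simp only [hW, map_mul, Complex.conj_ofReal]
        push_cast
        rw [← h5]
        linear_combination (((s j : ℝ) : ℂ) * ((s k : ℝ) : ℂ) * w j * (starRingEnd ℂ) (w k) *
          ((B j k : ℝ) : ℂ) * (cexp (-((τ : ℂ) * (e1 * ((s j : ℝ) : ℂ)))) *
              (starRingEnd ℂ) (cexp (-((τ : ℂ) * (e1 * ((s k : ℝ) : ℂ))))))) * h6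
      rw [h2, Complex.add_re]
      have h3 := herm_im hB (fun j => ((s j : ℝ) : ℂ) * W j)
      rw [Complex.mul_re I, h3]
      simp only [Complex.I_re, zero_mul, mul_zero, sub_zero, add_zero]
      exact h1)
  have h7 : E * zeta B s w
      = ∑ j, ∑ k, E * (((s j : ℝ) : ℂ) * w j *
      (starRingEnd ℂ) (w k) * ((B j k : ℝ) : ℂ)) := by
    unfold zeta
    rw [Finset.mul_sum]
    refine Finset.sum_congr rfl fun j _ => ?_
    rw [Finset.mul_sum]
  rw [h7]
  exact hmain

/-- STIELTJES STEP from weak accretivity: the power is strictly accretive -/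
theorem acc_rpow_of_accW {B : ι → ι → ℝ} (hB : ∀ j k, B j k = B k j) (hpos : PD B)
    {a : ℝ} (ha0 : 0 ≤ a) (ha : a < Real.pi / 2) {D : ι → ℝ} (hD : ∀ j, 0 < D j)
    (h : AccW B a D) {β : ℝ} (hβ : β ∈ Set.Ioo (0 : ℝ) 1) :
    Acc B a (fun j => D j ^ β) := by
  intro w hw
  have hcos : 0 < Real.cos a := Real.cos_pos_of_mem_Ioo ⟨by linarith [Real.pi_pos], ha⟩
  rw [zeta_re_eq]
  set R : ι → ℝ := fun j => (cexp (a * I) * (w j * ∑ k,
      (starRingEnd ℂ) (w k) * ((B j k : ℝ) : ℂ))).re with hR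
  set C : ℝ := ∫ t in Ioi (0 : ℝ), Real.rpowIntegrand₀₁ β t 1 with hC
  have hCpos : 0 < C := Real.integral_rpowIntegrand₀₁_one_pos hβ
  have h1 : ∑ j, D j ^ β * R j
      = C⁻¹ * ∫ t in Ioi (0 : ℝ), ∑ j, Real.rpowIntegrand₀₁ β t (D j) * R j := by
    rw [MeasureTheory.integral_finset_sum]
    · rw [Finset.mul_sum]
      refine Finset.sum_congr rfl fun j _ => ?_
      rw [MeasureTheory.integral_mul_const, ← mul_assoc,
        ← Real.rpow_eq_const_mul_integral hβ (hD j).le]
    · intro j _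
      exact (Real.integrableOn_rpowIntegrand₀₁_Ioi hβ (hD j).le).mul_const _
  have hint : IntegrableOn (fun t => ∑ j, Real.rpowIntegrand₀₁ β t (D j) * R j) (Ioi (0 : ℝ)) := by
    refine MeasureTheory.integrable_finset_sum _ fun j _ => ?_
    exact (Real.integrableOn_rpowIntegrand₀₁_Ioi hβ (hD j).le).mul_const _
  have hpt : ∀ t ∈ Ioi (0 : ℝ), 0 < ∑ j, Real.rpowIntegrand₀₁ β t (D j) * R j := by
    intro t ht
    have ht0 : 0 < t := ht
    have h2 : ∑ j, Real.rpowIntegrand₀₁ β t (D j) * R j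
        = t ^ (β - 1) * ∑ j, D j / (t + D j) * R j := by
      rw [Finset.mul_sum]
      refine Finset.sum_congr rfl fun j _ => ?_
      rw [Real.rpowIntegrand₀₁_eq_pow_div hβ ht0.le (hD j).le]
      ring
    rw [h2]
    refine mul_pos (Real.rpow_pos_of_pos ht0 _) ?_
    have h3 := zeta_re_eq B a (fun j => D j / (t + D j)) w
    rw [← h3, zeta_resolvent B hD ht0 w]
    set v : ι → ℂ := fun j => w j / ((t + D j : ℝ) : ℂ) with hv
    have hv0 : v ≠ 0 := by
      intro h0
      apply hw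
      funext j
      have := congrFun h0 j
      have h1 : ((t + D j : ℝ) : ℂ) ≠ 0 := by
        rw [Complex.ofReal_ne_zero]
        linarith [hD j]
      simp only [hv, Pi.zero_apply, div_eq_zero_iff] at this
      rcases this with h | h
      · exact h
      · exact absurd h h1
    have hv1 : (fun j => ((D j : ℝ) : ℂ) * v j) ≠ 0 := by
      intro h0
      apply hv0
      funext j
      have := congrFun h0 j
      simp only [Pi.zero_apply, mul_eq_zero, Complex.ofReal_eq_zero] at this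
      rcases this with h | h
      · exact absurd h (hD j).ne'
      · exact h
    have h4 := h v
    have h5 := hpos _ hv1
    have h6 := herm_im hB (fun j => ((D j : ℝ) : ℂ) * v j)
    rw [mul_add, Complex.add_re]
    have h7 : (cexp (a * I) * ((t : ℂ) * zeta B D v)).re = t * (cexp (a * I) * zeta B D v).re := by
      rw [← Complex.re_ofReal_mul]
      congr 1
      ring
    have h8 : (cexp (a * I) * ∑ j, ∑ k, (((D j : ℝ) : ℂ) * v j) *
          (starRingEnd ℂ) (((D k : ℝ) : ℂ) * v k) * ((B j k : ℝ) : ℂ)).re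
        = Real.cos a * (∑ j, ∑ k, (((D j : ℝ) : ℂ) * v j) *
          (starRingEnd ℂ) (((D k : ℝ) : ℂ) * v k) * ((B j k : ℝ) : ℂ)).re := by
      rw [Complex.mul_re, h6, Complex.exp_ofReal_mul_I_re]
      ring
    rw [h7, h8]
    exact add_pos_of_nonneg_of_pos (mul_nonneg ht0.le h4) (mul_pos hcos h5)
  rw [h1]
  refine mul_pos (inv_pos.mpr hCpos) ?_
  rw [MeasureTheory.setIntegral_pos_iff_support_of_nonneg_ae]
  · have : (Function.support fun t => ∑ j, Real.rpowIntegrand₀₁ β t (D j) * R j) ∩ Ioi (0 : ℝ)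
        = Ioi (0 : ℝ) := by
      apply Set.inter_eq_right.mpr
      intro t ht
      exact (hpt t ht).ne'
    rw [this, Real.volume_Ioi]
    exact ENNReal.zero_lt_top
  · rw [Filter.EventuallyLE, MeasureTheory.ae_restrict_iff' measurableSet_Ioi]
    exact Filter.Eventually.of_forall fun t ht => (hpt t ht).le
  · exact hint

lemma Acc.weak {B : ι → ι → ℝ} {a : ℝ} {D : ι → ℝ} (h : Acc B a D) : AccW B a D := by
  intro w
  by_cases hw : w = 0
  · subst hw
    simp [zeta]
  · exact (h w hw).le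

/-- iterated roots -/
theorem accW_root_iter {B : ι → ι → ℝ} (hB : ∀ j k, B j k = B k j) {T : ι → ℝ}
    (hT : ∀ j, 0 < T j) (h : AccW B 0 T) (m : ℕ) :
    AccW B (Real.pi / 2 - Real.pi / 2 ^ (m + 1)) (fun j => T j ^ (((1 : ℝ) / 2) ^ m)) := by
  induction m with
  | zero => simpa using h
  | succ m ih =>
    have hpow : (1 : ℝ) ≤ 2 ^ m := one_le_pow₀ (by norm_num)
    have ha0 : 0 ≤ Real.pi / 2 - Real.pi / 2 ^ (m + 1) := by
      have : Real.pi / 2 ^ (m + 1) ≤ Real.pi / 2 := by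
        apply div_le_div_of_nonneg_left Real.pi_pos.le (by norm_num)
        rw [pow_succ]
        linarith
      linarith
    have ha : Real.pi / 2 - Real.pi / 2 ^ (m + 1) < Real.pi / 2 := by
      have : 0 < Real.pi / 2 ^ (m + 1) := by positivity
      linarith
    have heq : (fun j => (T j ^ (((1 : ℝ) / 2) ^ (m + 1))) ^ 2)
        = fun j => T j ^ (((1 : ℝ) / 2) ^ m) := by
      funext j
      rw [← Real.rpow_natCast, ← Real.rpow_mul (hT j).le]
      congr 1
      push_cast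
      rw [pow_succ]
      ring
    have h1 := accW_sqrt hB ha0 ha (s := fun j => T j ^ (((1 : ℝ) / 2) ^ (m + 1)))
      (fun j => Real.rpow_pos_of_pos (hT j) _) (by
        rw [heq]
        exact ih)
    convert h1 using 1
    rw [pow_succ 2 (m + 1)]
    ring

/-- closed sector from the two half planes -/
lemma arg_le_of_re {a : ℝ} (ha0 : 0 ≤ a) (ha : a < Real.pi / 2) {z : ℂ} (hz : z ≠ 0)
    (h1 : 0 ≤ (cexp (a * I) * z).re) (h2 : 0 ≤ (cexp (((-a : ℝ) : ℂ) * I) * z).re) :
    |z.arg| ≤ Real.pi / 2 - a := by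
  have hn : 0 < ‖z‖ := norm_pos_iff.mpr hz
  have hpol : ∀ b : ℝ, (cexp ((b : ℂ) * I) * z).re = ‖z‖ * Real.cos (b + z.arg) := by
    intro b
    have h3 : z = ‖z‖ * cexp (z.arg * I) := (Complex.norm_mul_exp_arg_mul_I z).symm
    have h4 : cexp ((b : ℂ) * I) * z = (‖z‖ : ℂ) * cexp (((b + z.arg : ℝ) : ℂ) * I) := by
      conv_lhs => rw [h3]
      rw [mul_left_comm, ← Complex.exp_add]
      congr 2
      push_cast
      ring
    rw [h4, Complex.re_ofReal_mul, Complex.exp_ofReal_mul_I_re]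
  rw [hpol] at h1 h2
  have c1 : 0 ≤ Real.cos (a + z.arg) := (mul_nonneg_iff_of_pos_left hn).mp h1
  have c2 : 0 ≤ Real.cos (-a + z.arg) := (mul_nonneg_iff_of_pos_left hn).mp h2
  have hle := Complex.arg_le_pi z
  have hgt := Complex.neg_pi_lt_arg z
  rw [abs_le]
  constructor
  · by_contra hcon
    rw [not_le] at hcon
    have : Real.cos (-a + z.arg) < 0 := by
      rw [← Real.cos_neg]
      refine Real.cos_neg_of_pi_div_two_lt_of_lt ?_ ?_ <;> linarith
    linarith
  · by_contra hcon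
    rw [not_le] at hcon
    have : Real.cos (a + z.arg) < 0 := by
      refine Real.cos_neg_of_pi_div_two_lt_of_lt ?_ ?_ <;> linarith
    linarith

/-- transfer of the exponent to the other index -/
lemma zeta_neg_pow {B : ι → ι → ℝ} (hB : ∀ j k, B j k = B k j) {T : ι → ℝ} (hT : ∀ j, 0 < T j)
    (θ : ℝ) (w : ι → ℂ) :
    zeta B (fun j => T j ^ θ) w
      = (starRingEnd ℂ) (zeta B (fun j => T j ^ (-θ)) (fun j => ((T j ^ θ : ℝ) : ℂ) * w j)) := by
  unfold zeta
  rw [map_sum, Finset.sum_comm]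
  refine Finset.sum_congr rfl fun j _ => ?_
  rw [map_sum]
  refine Finset.sum_congr rfl fun k _ => ?_
  simp only [map_mul, Complex.conj_conj, Complex.conj_ofReal]
  rw [hB k j]
  have h1 : ((T j ^ (-θ) : ℝ) : ℂ) * ((T j ^ θ : ℝ) : ℂ) = 1 := by
    rw [← Complex.ofReal_mul, ← Real.rpow_add (hT j), neg_add_cancel, Real.rpow_zero,
      Complex.ofReal_one]
  linear_combination (-(((T k ^ θ : ℝ) : ℂ) * w k * (starRingEnd ℂ) (w j) * ((B j k : ℝ) : ℂ))) * h1

/-- SECTOR LEMMA: for `|θ| ≤ 2^{-m}`, `m ≥ 1`, the form of `T^θ` is non-zero and lies in the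
closed sector of half angle `π / 2^{m+1}`. -/
theorem sector_pow {B : ι → ι → ℝ} (hB : ∀ j k, B j k = B k j) (hpos : PD B) {T : ι → ℝ}
    (hT : ∀ j, 0 < T j) (h : AccW B 0 T) {m : ℕ} (hm : 1 ≤ m) {θ : ℝ}
    (hθ : |θ| ≤ ((1 : ℝ) / 2) ^ m) {w : ι → ℂ} (hw : w ≠ 0) :
    zeta B (fun j => T j ^ θ) w ≠ 0 ∧
      |(zeta B (fun j => T j ^ θ) w).arg| ≤ Real.pi / 2 ^ (m + 1) := by
  have key : ∀ θ : ℝ, 0 < θ → θ ≤ ((1 : ℝ) / 2) ^ m → ∀ w : ι → ℂ, w ≠ 0 →
      zeta B (fun j => T j ^ θ) w ≠ 0 ∧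
      |(zeta B (fun j => T j ^ θ) w).arg| ≤ Real.pi / 2 ^ (m + 1) := by
    intro θ hθ0 hθ1 w hw
    have hm2 : ((1 : ℝ) / 2) ^ m ≤ 1 / 2 := by
      calc ((1 : ℝ) / 2) ^ m ≤ (1 / 2) ^ 1 := pow_le_pow_of_le_one (by norm_num) (by norm_num) hm
        _ = 1 / 2 := by norm_num
    have hA := acc_rpow_of_accW hB hpos le_rfl (by positivity) hT h
      (β := θ) ⟨hθ0, by linarith⟩ w hw
    have hne : zeta B (fun j => T j ^ θ) w ≠ 0 := by
      intro h0
      rw [h0] at hA
      simp at hA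
    refine ⟨hne, ?_⟩
    have hpow : (1 : ℝ) ≤ 2 ^ m := one_le_pow₀ (by norm_num)
    have ha0 : 0 ≤ Real.pi / 2 - Real.pi / 2 ^ (m + 1) := by
      have : Real.pi / 2 ^ (m + 1) ≤ Real.pi / 2 := by
        apply div_le_div_of_nonneg_left Real.pi_pos.le (by norm_num)
        rw [pow_succ]
        linarith
      linarith
    have ha : Real.pi / 2 - Real.pi / 2 ^ (m + 1) < Real.pi / 2 := by
      have : 0 < Real.pi / 2 ^ (m + 1) := by positivity
      linarith
    have hW : AccW B (Real.pi / 2 - Real.pi / 2 ^ (m + 1)) (fun j => T j ^ θ) := by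
      have h1 := accW_root_iter hB hT h m
      rcases hθ1.lt_or_eq with hlt | heq
      · have hp : (0 : ℝ) < ((1 : ℝ) / 2) ^ m := by positivity
        have h2 := (acc_rpow_of_accW hB hpos ha0 ha
          (fun j => Real.rpow_pos_of_pos (hT j) (((1 : ℝ) / 2) ^ m)) h1
          (β := θ / ((1 : ℝ) / 2) ^ m) ⟨by positivity, (div_lt_one hp).mpr hlt⟩).weak
        have h3 : (fun j => (T j ^ (((1 : ℝ) / 2) ^ m)) ^ (θ / ((1 : ℝ) / 2) ^ m))
            = fun j => T j ^ θ := by
          funext j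
          rw [← Real.rpow_mul (hT j).le]
          congr 1
          field_simp
        rw [h3] at h2
        exact h2
      · rw [heq]
        exact h1
    have := arg_le_of_re ha0 ha hne (hW w) (hW.neg w)
    linarith
  rcases lt_trichotomy θ 0 with hneg | hzero | hpos'
  · have h1 : (fun j => ((T j ^ θ : ℝ) : ℂ) * w j) ≠ 0 := by
      intro h0
      apply hw
      funext j
      have := congrFun h0 j
      simp only [Pi.zero_apply, mul_eq_zero, Complex.ofReal_eq_zero] at this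
      rcases this with h | h
      · exact absurd h (Real.rpow_pos_of_pos (hT j) _).ne'
      · exact h
    rw [zeta_neg_pow hB hT θ w]
    have h2 := key (-θ) (by linarith) (by rwa [abs_of_neg hneg] at hθ) _ h1
    refine ⟨?_, ?_⟩
    · intro h0
      exact h2.1 ((map_eq_zero _).mp h0)
    · rw [Complex.arg_conj]
      split_ifs with hc
      · rw [hc] at h2
        exact h2.2
      · rw [abs_neg]
        exact h2.2
  · subst hzero
    have h1 := hpos w hw
    have h2 := herm_im hB w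
    have h3 : zeta B (fun j => T j ^ (0 : ℝ)) w
        = ∑ j, ∑ k, w j * (starRingEnd ℂ) (w k) * ((B j k : ℝ) : ℂ) := by
      unfold zeta
      simp
    rw [h3]
    refine ⟨?_, ?_⟩
    · intro h0
      rw [h0] at h1
      simp at h1
    · have h4 : (∑ j, ∑ k, w j * (starRingEnd ℂ) (w k) * ((B j k : ℝ) : ℂ)).arg = 0 := by
        rw [Complex.arg_eq_zero_iff]
        exact ⟨h1.le, h2⟩
      rw [h4, abs_zero]
      positivity
  · exact key θ hpos' (by rwa [abs_of_pos hpos'] at hθ) w hw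

/-- quotient lemma -/
lemma arg_of_balance {a b z : ℂ} {δ : ℝ} (hδ : 2 * δ < Real.pi) (ha : a ≠ 0) (hb : b ≠ 0)
    (ha' : |a.arg| ≤ δ) (hb' : |b.arg| ≤ δ) (h : a + z * b = 0) :
    z ≠ 0 ∧ |(-z).arg| ≤ 2 * δ := by
  have hδ0 : 0 ≤ δ := le_trans (abs_nonneg _) ha'
  have hz : -z = a * b⁻¹ := by
    field_simp
    linear_combination -h
  have hz0 : z ≠ 0 := by
    rintro rfl
    apply ha
    simpa using h
  refine ⟨hz0, ?_⟩
  have ha2 := abs_le.mp ha'
  have hb2 := abs_le.mp hb'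
  have hinv : (b⁻¹).arg = - b.arg := by
    rw [Complex.arg_inv, if_neg]
    intro hc
    rw [hc] at hb2
    linarith [hb2.2, Real.pi_pos]
  have hsum : (a * b⁻¹).arg = a.arg + (b⁻¹).arg := by
    rw [Complex.arg_mul_eq_add_arg_iff ha (inv_ne_zero hb), hinv]
    constructor <;> linarith [ha2.1, ha2.2, hb2.1, hb2.2]
  rw [hz, hsum, hinv, abs_le]
  constructor <;> linarith [ha2.1, ha2.2, hb2.1, hb2.2]

end RFS53
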