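import Mathlib
import Pool.Agent.RFS53.Weak

/-!
Zero sector of the even and odd sections (helper53): abstract form.
`h` are the coefficients of a polynomial of degree `n`, `b` the (unnormalised) coupling form.
-/

open Finset Complex

namespace RFS53

lemma accW_zero_of_real {ι : Type*} [Fintype ι] {B : ι → ι → ℝ} {T : ι → ℝ}
    (h : ∀ x : ι → ℝ, 0 ≤ ∑ j, ∑ k, T j * x j * x k * B j k) : AccW B 0 T := by
  intro w
  have h1 := h (fun j => (w j).re)
  have h2 := h (fun j => (w j).im)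
  have h3 : (cexp (((0 : ℝ) : ℂ) * I) * zeta B T w).re
      = (∑ j, ∑ k, T j * (w j).re * (w k).re * B j k)
        + ∑ j, ∑ k, T j * (w j).im * (w k).im * B j k := by
    rw [Complex.ofReal_zero, zero_mul, Complex.exp_zero, one_mul]
    unfold zeta
    rw [Complex.re_sum, ← Finset.sum_add_distrib]
    refine Finset.sum_congr rfl fun j _ => ?_
    rw [Complex.re_sum, ← Finset.sum_add_distrib]
    refine Finset.sum_congr rfl fun k _ => ?_
    rw [Complex.re_mul_ofReal, mul_assoc ((T j : ℝ) : ℂ), Complex.re_ofReal_mul, Complex.mul_re,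
      Complex.conj_re, Complex.conj_im]
    ring
  rw [h3]
  exact add_nonneg h1 h2

lemma pd_of_real {ι : Type*} [Fintype ι] {B : ι → ι → ℝ}
    (h : ∀ x : ι → ℝ, x ≠ 0 → 0 < ∑ j, ∑ k, x j * x k * B j k) : PD B := by
  intro w hw
  have h0 : ∀ x : ι → ℝ, 0 ≤ ∑ j, ∑ k, x j * x k * B j k := by
    intro x
    by_cases hx : x = 0
    · subst hx
      simp
    · exact (h x hx).le
  have h3 : (∑ j, ∑ k, w j * (starRingEnd ℂ) (w k) * ((B j k : ℝ) : ℂ)).re
      = (∑ j, ∑ k, (w j).re * (w k).re * B j k)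
        + ∑ j, ∑ k, (w j).im * (w k).im * B j k := by
    rw [Complex.re_sum, ← Finset.sum_add_distrib]
    refine Finset.sum_congr rfl fun j _ => ?_
    rw [Complex.re_sum, ← Finset.sum_add_distrib]
    refine Finset.sum_congr rfl fun k _ => ?_
    rw [Complex.re_mul_ofReal, Complex.mul_re, Complex.conj_re, Complex.conj_im]
    ring
  rw [h3]
  by_cases hre : (fun j => (w j).re) = 0
  · have him : (fun j => (w j).im) ≠ 0 := by
      intro him
      apply hw
      funext j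
      exact Complex.ext (congrFun hre j) (congrFun him j)
    exact add_pos_of_nonneg_of_pos (h0 _) (h _ him)
  · exact add_pos_of_pos_of_nonneg (h _ hre) (h0 _)

lemma abs_arg_conj_le {z : ℂ} {δ : ℝ} (h : |z.arg| ≤ δ) : |((starRingEnd ℂ) z).arg| ≤ δ := by
  rw [Complex.arg_conj]
  split_ifs with hc
  · rw [hc] at h
    exact h
  · rw [abs_neg]
    exact h

/-- the data of one replica -/
structure Rep (n : ℕ) (h : ℕ → ℝ) (b : ℕ → ℕ → ℝ) : Prop where
  hpos : ∀ p, p ≤ n → 0 < h p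
  symm : ∀ p q, b p q = b q p
  top : ∀ p, b p n = 0
  comp0 : ∀ q, q < n → q % 2 = 0 → b q 0 = h (q + 1) * h 0
  comp : ∀ p q, p < n → q < n → (p + 1) % 2 = q % 2 →
    b q (p + 1) + b p (q + 1) = h (q + 1) * h (p + 1)
  acc : ∀ x : Fin ((n + 1) / 2) → ℝ, 0 ≤ ∑ j : Fin ((n + 1) / 2), ∑ k : Fin ((n + 1) / 2),
    (h (2 * j) / h (2 * j + 1)) * x j * x k * b (2 * j) (2 * k)
  acc' : ∀ x : Fin (n / 2) → ℝ, 0 ≤ ∑ j : Fin (n / 2), ∑ k : Fin (n / 2),
    (h (2 * j + 1) / h (2 * j + 2)) * x j * x k * b (2 * j + 1) (2 * k + 1)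
  pd : ∀ x : Fin ((n + 1) / 2) → ℝ, x ≠ 0 →
    0 < ∑ j : Fin ((n + 1) / 2), ∑ k : Fin ((n + 1) / 2), x j * x k * b (2 * j) (2 * k)
  pd' : ∀ x : Fin (n / 2) → ℝ, x ≠ 0 →
    0 < ∑ j : Fin (n / 2), ∑ k : Fin (n / 2), x j * x k * b (2 * j + 1) (2 * k + 1)

/-- ZERO SECTOR -/
theorem zero_sector {n : ℕ} {h : ℕ → ℝ} {b : ℕ → ℕ → ℝ} (hn : 2 ≤ n) (R : Rep n h b)
    {m : ℕ} (hm : 1 ≤ m) {θ : ℝ} (hθ : |θ| ≤ ((1 : ℝ) / 2) ^ m) {z : ℂ}
    (hz : ∑ j ∈ range (n / 2 + 1), ((h (2 * j) ^ (1 + θ) : ℝ) : ℂ) * z ^ j = 0 ∨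
      ∑ k ∈ range ((n + 1) / 2), ((h (2 * k + 1) ^ (1 + θ) : ℝ) : ℂ) * z ^ k = 0) :
    z ≠ 0 ∧ |(-z).arg| ≤ Real.pi / 2 ^ m := by
  obtain ⟨hpos, symm, top, comp0, comp, acc, acc', pd, pd'⟩ := R
  -- blocks
  set Be : Fin ((n + 1) / 2) → Fin ((n + 1) / 2) → ℝ := fun j k => b (2 * j) (2 * k) with hBe
  set Bo : Fin (n / 2) → Fin (n / 2) → ℝ := fun j k => b (2 * j + 1) (2 * k + 1) with hBo
  set Te : Fin ((n + 1) / 2) → ℝ := fun j => h (2 * j) / h (2 * j + 1) with hTe
  set To : Fin (n / 2) → ℝ := fun j => h (2 * j + 1) / h (2 * j + 2) with hTo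
  have hTe0 : ∀ j, 0 < Te j := fun j => div_pos (hpos _ (by omega)) (hpos _ (by omega))
  have hTo0 : ∀ j, 0 < To j := fun j => div_pos (hpos _ (by omega)) (hpos _ (by omega))
  set v : Fin ((n + 1) / 2) → ℂ := fun j => z ^ (j : ℕ) * ((h (2 * j) ^ θ : ℝ) : ℂ) with hv
  set u : Fin (n / 2) → ℂ := fun j => z ^ (j : ℕ) * ((h (2 * j + 1) ^ θ : ℝ) : ℂ) with hu
  have hv0 : v ≠ 0 := by
    intro h0
    have := congrFun h0 ⟨0, by omega⟩
    simp only [hv, pow_zero, one_mul, Pi.zero_apply, Complex.ofReal_eq_zero] at this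
    exact (Real.rpow_pos_of_pos (hpos _ (by omega)) _).ne' this
  have hu0 : u ≠ 0 := by
    intro h0
    have := congrFun h0 ⟨0, by omega⟩
    simp only [hu, pow_zero, one_mul, Pi.zero_apply, Complex.ofReal_eq_zero] at this
    exact (Real.rpow_pos_of_pos (hpos _ (by omega)) _).ne' this
  have hθ' : |(-θ)| ≤ ((1 : ℝ) / 2) ^ m := by rwa [abs_neg]
  have hE := sector_pow (B := Be) (fun j k => symm _ _) (pd_of_real pd) hTe0
    (accW_zero_of_real acc) hm hθ' hv0
  have hO := sector_pow (B := Bo) (fun j k => symm _ _) (pd_of_real pd') hTo0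
    (accW_zero_of_real acc') hm hθ' hu0
  -- the balance
  have hbal : (starRingEnd ℂ) (zeta Be (fun j => Te j ^ (-θ)) v)
      + z * zeta Bo (fun j => To j ^ (-θ)) u = 0 := by
    -- the double sum
    set g : ℕ → ℕ → ℂ := fun j k => z ^ j * (starRingEnd ℂ) (z ^ k) *
      ((h (2 * j) ^ θ : ℝ) : ℂ) * ((h (2 * k + 1) ^ θ : ℝ) : ℂ) with hg
    have hS : ∑ k ∈ range ((n + 1) / 2), ∑ j ∈ range (n / 2 + 1),
        g j k * ((h (2 * j) * h (2 * k + 1) : ℝ) : ℂ) = 0 := by
      have h1 : ∑ k ∈ range ((n + 1) / 2), ∑ j ∈ range (n / 2 + 1),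
          g j k * ((h (2 * j) * h (2 * k + 1) : ℝ) : ℂ)
          = (starRingEnd ℂ) (∑ k ∈ range ((n + 1) / 2),
              ((h (2 * k + 1) ^ (1 + θ) : ℝ) : ℂ) * z ^ k) *
            (∑ j ∈ range (n / 2 + 1), ((h (2 * j) ^ (1 + θ) : ℝ) : ℂ) * z ^ j) := by
        rw [map_sum, Finset.sum_mul_sum]
        refine Finset.sum_congr rfl fun k hk => Finset.sum_congr rfl fun j hj => ?_
        rw [Finset.mem_range] at hk hj
        rw [map_mul, Complex.conj_ofReal, Real.rpow_add (hpos _ (by omega)),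
          Real.rpow_add (hpos _ (by omega)), Real.rpow_one, Real.rpow_one]
        simp only [hg]
        push_cast
        ring
      rw [h1]
      rcases hz with hz | hz
      · rw [hz, mul_zero]
      · rw [hz, map_zero, zero_mul]
    -- split by the complement identity
    have hsplit : ∀ k ∈ range ((n + 1) / 2), ∑ j ∈ range (n / 2 + 1),
        g j k * ((h (2 * j) * h (2 * k + 1) : ℝ) : ℂ)
        = ∑ j ∈ range ((n + 1) / 2), g j k * ((b (2 * k) (2 * j) : ℝ) : ℂ)
          + ∑ i ∈ range (n / 2), g (i + 1) k * ((b (2 * i + 1) (2 * k + 1) : ℝ) : ℂ) := by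
      intro k hk
      rw [Finset.mem_range] at hk
      have h2 : ∑ j ∈ range ((n + 1) / 2), g j k * ((b (2 * k) (2 * j) : ℝ) : ℂ)
          = ∑ j ∈ range (n / 2 + 1), g j k * ((b (2 * k) (2 * j) : ℝ) : ℂ) := by
        refine Finset.sum_subset (fun j hj => ?_) (fun j hj hj' => ?_)
        · rw [Finset.mem_range] at hj ⊢
          omega
        · rw [Finset.mem_range] at hj hj'
          have : 2 * j = n := by omega
          rw [this, top]
          simp
      rw [h2, Finset.sum_range_succ', Finset.sum_range_succ' (fun j => g j k *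
        ((b (2 * k) (2 * j) : ℝ) : ℂ)), add_right_comm, ← Finset.sum_add_distrib]
      congr 1
      · refine Finset.sum_congr rfl fun i hi => ?_
        rw [Finset.mem_range] at hi
        have h3 := comp (2 * i + 1) (2 * k) (by omega) (by omega) (by omega)
        rw [← mul_add, ← Complex.ofReal_add]
        have e1 : 2 * (i + 1) = 2 * i + 1 + 1 := by ring
        rw [e1, h3, mul_comm (h (2 * k + 1))]
      · have h3 := comp0 (2 * k) (by omega) (by omega)
        rw [mul_zero, h3, mul_comm (h (2 * k + 1))]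
    rw [Finset.sum_congr rfl hsplit, Finset.sum_add_distrib] at hS
    -- identify the two parts
    have hpart1 : (starRingEnd ℂ) (zeta Be (fun j => Te j ^ (-θ)) v)
        = ∑ k ∈ range ((n + 1) / 2), ∑ j ∈ range ((n + 1) / 2),
          g j k * ((b (2 * k) (2 * j) : ℝ) : ℂ) := by
      rw [Finset.sum_range]
      unfold zeta
      rw [map_sum]
      refine Finset.sum_congr rfl fun k _ => ?_
      rw [map_sum, Finset.sum_range]
      refine Finset.sum_congr rfl fun j _ => ?_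
      have hk1 : 0 < h (2 * (k : ℕ)) := hpos _ (by omega)
      have hk2 : 0 < h (2 * (k : ℕ) + 1) := hpos _ (by omega)
      have h4 : Te k ^ (-θ) * h (2 * k) ^ θ = h (2 * k + 1) ^ θ := by
        simp only [hTe]
        rw [Real.rpow_neg (div_pos hk1 hk2).le, Real.div_rpow hk1.le hk2.le]
        have := (Real.rpow_pos_of_pos hk1 θ).ne'
        field_simp
      simp only [map_mul, Complex.conj_ofReal, Complex.conj_conj, hv, hg, hBe]
      have h5 : ((Te k ^ (-θ) : ℝ) : ℂ) * ((h (2 * k) ^ θ : ℝ) : ℂ)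
          = ((h (2 * k + 1) ^ θ : ℝ) : ℂ) := by
        rw [← Complex.ofReal_mul, h4]
      rw [← h5]
      ring
    have hpart2 : z * zeta Bo (fun j => To j ^ (-θ)) u
        = ∑ k ∈ range ((n + 1) / 2), ∑ i ∈ range (n / 2),
          g (i + 1) k * ((b (2 * i + 1) (2 * k + 1) : ℝ) : ℂ) := by
      have h6 : ∑ k ∈ range ((n + 1) / 2), ∑ i ∈ range (n / 2),
          g (i + 1) k * ((b (2 * i + 1) (2 * k + 1) : ℝ) : ℂ)
          = ∑ k ∈ range (n / 2), ∑ i ∈ range (n / 2),
          g (i + 1) k * ((b (2 * i + 1) (2 * k + 1) : ℝ) : ℂ) := by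
        symm
        refine Finset.sum_subset (fun j hj => ?_) (fun j hj hj' => ?_)
        · rw [Finset.mem_range] at hj ⊢
          omega
        · rw [Finset.mem_range] at hj hj'
          have : 2 * j + 1 = n := by omega
          refine Finset.sum_eq_zero fun i _ => ?_
          rw [this, top]
          simp
      rw [h6, Finset.sum_comm, Finset.sum_range]
      unfold zeta
      rw [Finset.mul_sum]
      refine Finset.sum_congr rfl fun i _ => ?_
      rw [Finset.mul_sum, Finset.sum_range]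
      refine Finset.sum_congr rfl fun k _ => ?_
      have hk1 : 0 < h (2 * (i : ℕ) + 1) := hpos _ (by omega)
      have hk2 : 0 < h (2 * (i : ℕ) + 2) := hpos _ (by omega)
      have h4 : To i ^ (-θ) * h (2 * i + 1) ^ θ = h (2 * i + 2) ^ θ := by
        simp only [hTo]
        rw [Real.rpow_neg (div_pos hk1 hk2).le, Real.div_rpow hk1.le hk2.le]
        have := (Real.rpow_pos_of_pos hk1 θ).ne'
        field_simp
      simp only [map_mul, Complex.conj_ofReal, hu, hg, hBo]
      have h5 : ((To i ^ (-θ) : ℝ) : ℂ) * ((h (2 * i + 1) ^ θ : ℝ) : ℂ)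
          = ((h (2 * i + 2) ^ θ : ℝ) : ℂ) := by
        rw [← Complex.ofReal_mul, h4]
      have e1 : 2 * ((i : ℕ) + 1) = 2 * i + 2 := by ring
      rw [e1, ← h5]
      ring
    rw [hpart1, hpart2]
    exact hS
  have hp2 : Real.pi / 2 ^ m = 2 * (Real.pi / 2 ^ (m + 1)) := by
    rw [pow_succ]
    field_simp
  rw [hp2]
  have h2m : (2 : ℝ) ≤ 2 ^ m := by
    calc (2 : ℝ) = 2 ^ 1 := by norm_num
      _ ≤ 2 ^ m := pow_le_pow_right₀ (by norm_num) hm
  refine arg_of_balance ?_ ?_ hO.1 (abs_arg_conj_le hE.2) hO.2 hbal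
  · rw [← hp2, div_lt_iff₀ (by positivity)]
    nlinarith [Real.pi_pos]
  · intro h0
    exact hE.1 ((map_eq_zero _).mp h0)

end RFS53
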