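import Mathlib
import Pool.Agent.RL1.Beta
import Pool.Agent.RFS53.ZeroSector

/-!
The one-replica data `Rep` for elementary symmetric functions (helper53).
-/

open Finset

namespace RFS53

variable {α : Type*} [DecidableEq α]

/-- elementary symmetric function -/
noncomputable def esy (w : α → ℝ) (V : Finset α) (p : ℕ) : ℝ := ∑ A ∈ V.powersetCard p, RL1.wt w A

/-- `h_{p+1} h_q E[a/(a+b)]`, `(A, B) ~ (p + 1, q)`, `a = |A \ B|`, `b = |B \ A|` -/
noncomputable def Eab (w : α → ℝ) (V : Finset α) (p q : ℕ) : ℝ :=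
  ∑ A ∈ V.powersetCard (p + 1), ∑ B ∈ V.powersetCard q,
    RL1.wt w A * RL1.wt w B * (((A \ B).card : ℝ) / (((A \ B).card : ℝ) + ((B \ A).card : ℝ)))

omit [DecidableEq α] in
lemma wt_pos {w : α → ℝ} (hw : ∀ a, 0 < w a) (A : Finset α) : 0 < RL1.wt w A :=
  Finset.prod_pos fun a _ => hw a

omit [DecidableEq α] in
lemma esy_pos {w : α → ℝ} (hw : ∀ a, 0 < w a) {V : Finset α} {p : ℕ} (hp : p ≤ V.card) :
    0 < esy w V p := by
  unfold esy
  exact Finset.sum_pos (fun A _ => wt_pos hw A) (Finset.powersetCard_nonempty.mpr hp)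

lemma Eab_zero (w : α → ℝ) (V : Finset α) (q : ℕ) :
    Eab w V q 0 = esy w V (q + 1) * esy w V 0 := by
  unfold Eab esy
  rw [Finset.sum_mul_sum]
  refine Finset.sum_congr rfl fun A hA => ?_
  rw [Finset.powersetCard_zero, Finset.sum_singleton, Finset.sum_singleton]
  have h1 : A.card = q + 1 := (Finset.mem_powersetCard.mp hA).2
  rw [Finset.sdiff_empty, Finset.empty_sdiff, Finset.card_empty, h1]
  have h2 : ((q + 1 : ℕ) : ℝ) ≠ 0 := by positivity
  simp only [Nat.cast_zero, add_zero]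
  rw [div_self h2, mul_one]

lemma Eab_comp (w : α → ℝ) (V : Finset α) {p q : ℕ} (hpq : p ≠ q) :
    Eab w V q (p + 1) + Eab w V p (q + 1) = esy w V (q + 1) * esy w V (p + 1) := by
  unfold Eab esy
  rw [Finset.sum_comm (s := V.powersetCard (p + 1)), Finset.sum_mul_sum, ← Finset.sum_add_distrib]
  refine Finset.sum_congr rfl fun A hA => ?_
  rw [← Finset.sum_add_distrib]
  refine Finset.sum_congr rfl fun B hB => ?_
  have hne : A ≠ B := by
    rintro rfl
    have h1 := (Finset.mem_powersetCard.mp hA).2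
    have h2 := (Finset.mem_powersetCard.mp hB).2
    omega
  have hpos : (((A \ B).card : ℝ) + ((B \ A).card : ℝ)) ≠ 0 := by
    have : (A \ B).card + (B \ A).card ≠ 0 := by
      intro h0
      have h1 : A \ B = ∅ := Finset.card_eq_zero.mp (by omega)
      have h2 : B \ A = ∅ := Finset.card_eq_zero.mp (by omega)
      exact hne (Finset.Subset.antisymm (Finset.sdiff_eq_empty_iff_subset.mp h1)
        (Finset.sdiff_eq_empty_iff_subset.mp h2))
    exact_mod_cast this
  have hpos' : (((B \ A).card : ℝ) + ((A \ B).card : ℝ)) ≠ 0 := by rwa [add_comm]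
  rw [add_comm ((B \ A).card : ℝ)]
  field_simp

/-- reindexing of pairs (set, point of the set) -/
lemma sum_card_succ (V : Finset α) (p : ℕ) (f : Finset α → α → ℝ) :
    ∑ A ∈ V.powersetCard (p + 1), ∑ a ∈ A, f A a
      = ∑ a ∈ V, ∑ A ∈ (V.erase a).powersetCard p, f (insert a A) a := by
  rw [Finset.sum_sigma', Finset.sum_sigma']
  refine Finset.sum_bij' (fun x _ => ⟨x.2, x.1.erase x.2⟩) (fun y _ => ⟨insert y.1 y.2, y.1⟩)
    ?_ ?_ ?_ ?_ ?_
  · rintro ⟨A, a⟩ h
    simp only [Finset.mem_sigma, Finset.mem_powersetCard] at h ⊢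
    obtain ⟨⟨h1, h2⟩, h3⟩ := h
    refine ⟨h1 h3, Finset.erase_subset_erase _ h1, ?_⟩
    rw [Finset.card_erase_of_mem h3, h2]
    rfl
  · rintro ⟨a, A⟩ h
    simp only [Finset.mem_sigma, Finset.mem_powersetCard] at h ⊢
    obtain ⟨h1, h2, h3⟩ := h
    have h4 : a ∉ A := fun hc => by
      have := h2 hc
      simp at this
    refine ⟨⟨?_, ?_⟩, Finset.mem_insert_self _ _⟩
    · intro x hx
      rcases Finset.mem_insert.mp hx with rfl | hx
      · exact h1
      · exact Finset.mem_of_mem_erase (h2 hx)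
    · rw [Finset.card_insert_of_notMem h4, h3]
  · rintro ⟨A, a⟩ h
    simp only [Finset.mem_sigma, Finset.mem_powersetCard] at h
    simp only [Finset.insert_erase h.2]
  · rintro ⟨a, A⟩ h
    simp only [Finset.mem_sigma, Finset.mem_powersetCard] at h
    obtain ⟨h1, h2, h3⟩ := h
    have h4 : a ∉ A := fun hc => by
      have := h2 hc
      simp at this
    simp only [Finset.erase_insert h4]
  · rintro ⟨A, a⟩ h
    simp only [Finset.mem_sigma, Finset.mem_powersetCard] at h
    simp only [Finset.insert_erase h.2]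

/-- `Eab` as a positive mixture -/
lemma Eab_eq (w : α → ℝ) (V : Finset α) (p q : ℕ) :
    Eab w V p q = ∑ a ∈ V, w a * ∑ A ∈ (V.erase a).powersetCard p,
      ∑ B ∈ (V.erase a).powersetCard q,
        RL1.wt w A * RL1.wt w B * RL1.be 0 (symmDiff A B).card := by
  have h1 : Eab w V p q = ∑ A ∈ V.powersetCard (p + 1), ∑ a ∈ A, ∑ B ∈ V.powersetCard q,
      (if a ∈ B then 0 else RL1.wt w A * RL1.wt w B *
        (1 / (((A \ B).card : ℝ) + ((B \ A).card : ℝ)))) := by
    unfold Eab
    refine Finset.sum_congr rfl fun A _ => ?_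
    rw [Finset.sum_comm]
    refine Finset.sum_congr rfl fun B _ => ?_
    have h2 : ∑ a ∈ A, (if a ∈ B then (0 : ℝ) else RL1.wt w A * RL1.wt w B *
        (1 / (((A \ B).card : ℝ) + ((B \ A).card : ℝ))))
        = ∑ a ∈ A \ B, RL1.wt w A * RL1.wt w B *
        (1 / (((A \ B).card : ℝ) + ((B \ A).card : ℝ))) := by
      rw [Finset.sum_ite, Finset.sum_const_zero, zero_add, Finset.sdiff_eq_filter]
    rw [h2, Finset.sum_const, nsmul_eq_mul]
    ring
  rw [h1, sum_card_succ V p (fun A a => ∑ B ∈ V.powersetCard q,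
      (if a ∈ B then 0 else RL1.wt w A * RL1.wt w B *
        (1 / (((A \ B).card : ℝ) + ((B \ A).card : ℝ)))))]
  refine Finset.sum_congr rfl fun a ha => ?_
  rw [Finset.mul_sum]
  refine Finset.sum_congr rfl fun A hA => ?_
  rw [Finset.mem_powersetCard] at hA
  have haA : a ∉ A := fun hc => by
    have := hA.1 hc
    simp at this
  have h3 : ∀ B ∈ V.powersetCard q, B ∉ (V.erase a).powersetCard q →
      (if a ∈ B then 0 else RL1.wt w (insert a A) * RL1.wt w B *
        (1 / ((((insert a A) \ B).card : ℝ) + ((B \ (insert a A)).card : ℝ)))) = 0 := by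
    intro B hB hB'
    rw [Finset.mem_powersetCard] at hB hB'
    have : a ∈ B := by
      by_contra hc
      apply hB'
      refine ⟨fun x hx => ?_, hB.2⟩
      rw [Finset.mem_erase]
      exact ⟨fun h => hc (h ▸ hx), hB.1 hx⟩
    rw [if_pos this]
  rw [← Finset.sum_subset (Finset.powersetCard_mono (Finset.erase_subset a V)) h3,
    Finset.mul_sum]
  refine Finset.sum_congr rfl fun B hB => ?_
  rw [Finset.mem_powersetCard] at hB
  have haB : a ∉ B := fun hc => by
    have := hB.1 hc
    simp at this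
  rw [if_neg haB]
  have h4 : RL1.wt w (insert a A) = w a * RL1.wt w A := by
    unfold RL1.wt
    rw [Finset.prod_insert haA]
  have h5 : ((insert a A) \ B).card + (B \ (insert a A)).card = (symmDiff A B).card + 1 := by
    rw [← RL1.card_symmDiff_insert_left haA haB, symmDiff_def, Finset.sup_eq_union,
      Finset.card_union_of_disjoint]
    exact disjoint_sdiff_sdiff
  have h6 : (((insert a A) \ B).card : ℝ) + ((B \ (insert a A)).card : ℝ)
      = ((symmDiff A B).card : ℝ) + 1 := by exact_mod_cast h5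
  rw [h4, h6, RL1.be_zero]
  ring

lemma Eab_symm (w : α → ℝ) (V : Finset α) (p q : ℕ) : Eab w V p q = Eab w V q p := by
  rw [Eab_eq, Eab_eq]
  refine Finset.sum_congr rfl fun a _ => ?_
  rw [Finset.sum_comm]
  congr 1
  refine Finset.sum_congr rfl fun B _ => Finset.sum_congr rfl fun A _ => ?_
  rw [symmDiff_comm]
  ring

lemma Eab_top (w : α → ℝ) (V : Finset α) (p : ℕ) : Eab w V p V.card = 0 := by
  rw [Eab_symm]
  unfold Eab
  rw [Finset.powersetCard_eq_empty.mpr (Nat.lt_succ_self _), Finset.sum_empty]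

/-- lower bound of the form at fixed `t` -/
lemma qt_ge (t : ℝ) (h0 : 0 ≤ t) (h1 : t ≤ 1) (W : Finset α) :
    ∀ F : Finset α → ℝ, (1 - t) ^ W.card * ∑ A ∈ W.powerset, F A ^ 2 ≤ RL1.qt t W F := by
  induction W using Finset.induction_on with
  | empty =>
    intro F
    unfold RL1.qt
    simp [pow_two]
  | insert a W ha ih =>
    intro F
    rw [RL1.qt_insert t ha F, Finset.sum_powerset_insert ha, Finset.card_insert_of_notMem ha]
    have e1 := ih F
    have e2 := ih (fun A => F (insert a A))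
    have e3 := mul_nonneg h0 (RL1.qt_nonneg t h0 h1 W (fun A => F A + F (insert a A)))
    have e4 := mul_le_mul_of_nonneg_left (add_le_add e1 e2) (sub_nonneg.2 h1)
    rw [pow_succ]
    nlinarith

lemma ip_self_pos (W : Finset α) (F : Finset α → ℝ) {A : Finset α} (hA : A ⊆ W) (hF : F A ≠ 0) :
    0 < RL1.ip 0 W F F := by
  rw [RL1.ip_eq_integral]
  simp only [pow_zero, one_mul]
  have hS : 0 < ∑ A ∈ W.powerset, F A ^ 2 := by
    refine Finset.sum_pos' (fun _ _ => sq_nonneg _) ⟨A, Finset.mem_powerset.mpr hA, ?_⟩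
    positivity
  have hc : Continuous (fun t : ℝ => RL1.qt t W F) := by
    unfold RL1.qt
    fun_prop
  have h1 : ∫ t in (0 : ℝ)..1, (1 - t) ^ W.card * ∑ A ∈ W.powerset, F A ^ 2
      ≤ ∫ t in (0 : ℝ)..1, RL1.qt t W F := by
    refine intervalIntegral.integral_mono_on (by norm_num)
      (Continuous.intervalIntegrable (by fun_prop) _ _) (hc.intervalIntegrable _ _) ?_
    intro t ht
    exact qt_ge t ht.1 ht.2 W F
  refine lt_of_lt_of_le ?_ h1
  rw [intervalIntegral.integral_mul_const]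
  refine mul_pos ?_ hS
  refine intervalIntegral.intervalIntegral_pos_of_pos_on
    (Continuous.intervalIntegrable (by fun_prop) _ _) ?_ (by norm_num)
  intro t ht
  exact pow_pos (sub_pos.mpr ht.2) _

/-- the form of `Eab` for real coefficients -/
lemma Eab_form (w : α → ℝ) {V : Finset α} (hV : 1 ≤ V.card) (γ : ℕ → ℝ) :
    ∑ p ∈ range V.card, ∑ q ∈ range V.card, γ p * γ q * Eab w V p q
      = ∑ a ∈ V, w a * RL1.ip 0 (V.erase a) (fun A => γ A.card * RL1.wt w A)
        (fun A => γ A.card * RL1.wt w A) := by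
  have h1 : ∀ a ∈ V, RL1.ip 0 (V.erase a) (fun A => γ A.card * RL1.wt w A)
        (fun A => γ A.card * RL1.wt w A) = ∑ p ∈ range V.card, ∑ q ∈ range V.card,
        γ p * γ q * ∑ A ∈ (V.erase a).powersetCard p,
      ∑ B ∈ (V.erase a).powersetCard q,
        RL1.wt w A * RL1.wt w B * RL1.be 0 (symmDiff A B).card := by
    intro a ha
    unfold RL1.ip
    have hc : (V.erase a).card + 1 = V.card := Finset.card_erase_add_one ha
    have hAq : ∀ p, ∀ A ∈ (V.erase a).powersetCard p, ∑ B ∈ (V.erase a).powerset,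
        γ A.card * RL1.wt w A * (γ B.card * RL1.wt w B) * RL1.be 0 (symmDiff A B).card
        = ∑ q ∈ range V.card, ∑ B ∈ (V.erase a).powersetCard q, γ p * γ q *
          (RL1.wt w A * RL1.wt w B * RL1.be 0 (symmDiff A B).card) := by
      intro p A hA
      rw [Finset.sum_powerset, hc]
      refine Finset.sum_congr rfl fun q _ => ?_
      refine Finset.sum_congr rfl fun B hB => ?_
      rw [(Finset.mem_powersetCard.mp hA).2, (Finset.mem_powersetCard.mp hB).2]
      ring
    rw [Finset.sum_powerset, hc]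
    refine Finset.sum_congr rfl fun p _ => ?_
    rw [Finset.sum_congr rfl (hAq p), Finset.sum_comm]
    refine Finset.sum_congr rfl fun q _ => ?_
    rw [Finset.mul_sum]
    refine Finset.sum_congr rfl fun A _ => ?_
    rw [Finset.mul_sum]
  have h0 : ∑ a ∈ V, w a * RL1.ip 0 (V.erase a) (fun A => γ A.card * RL1.wt w A)
        (fun A => γ A.card * RL1.wt w A) = ∑ a ∈ V, w a * ∑ p ∈ range V.card,
        ∑ q ∈ range V.card, γ p * γ q * ∑ A ∈ (V.erase a).powersetCard p,
      ∑ B ∈ (V.erase a).powersetCard q,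
        RL1.wt w A * RL1.wt w B * RL1.be 0 (symmDiff A B).card :=
    Finset.sum_congr rfl (fun a ha => by rw [h1 a ha])
  rw [h0]
  simp only [Eab_eq, Finset.mul_sum]
  conv_rhs => rw [Finset.sum_comm]
  refine Finset.sum_congr rfl fun p _ => ?_
  conv_rhs => rw [Finset.sum_comm]
  refine Finset.sum_congr rfl fun q _ => ?_
  refine Finset.sum_congr rfl fun a _ => ?_
  refine Finset.sum_congr rfl fun A _ => ?_
  refine Finset.sum_congr rfl fun B _ => ?_
  ring

lemma Eab_form_pos {w : α → ℝ} (hw : ∀ a, 0 < w a) {V : Finset α} (γ : ℕ → ℝ) {p : ℕ}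
    (hp : p < V.card) (hγ : γ p ≠ 0) :
    0 < ∑ p ∈ range V.card, ∑ q ∈ range V.card, γ p * γ q * Eab w V p q := by
  rw [Eab_form w (by omega) γ]
  obtain ⟨a, ha⟩ := Finset.card_pos.mp (by omega : 0 < V.card)
  refine Finset.sum_pos' (fun b _ => mul_nonneg (hw b).le (RL1.ip_self_nonneg _ _ _)) ⟨a, ha, ?_⟩
  refine mul_pos (hw a) ?_
  have hc : (V.erase a).card + 1 = V.card := Finset.card_erase_add_one ha
  obtain ⟨A, hA, hAc⟩ := Finset.exists_subset_card_eq (by omega : p ≤ (V.erase a).card)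
  refine ip_self_pos (A := A) _ _ hA ?_
  rw [hAc]
  exact mul_ne_zero hγ (wt_pos hw A).ne'

/-- a sum over one parity class -/
lemma sum_parity {M N π : ℕ} (hπ : π < 2) (hN : ∀ j, j < N → 2 * j + π < M) {X : ℕ → ℝ}
    (hX : ∀ j, N ≤ j → X j = 0) (g : ℕ → ℝ) :
    ∑ p ∈ range M, (if p % 2 = π then X (p / 2) else 0) * g p
      = ∑ j ∈ range N, X j * g (2 * j + π) := by
  have h1 : ∑ j ∈ range N, X j * g (2 * j + π)
      = ∑ p ∈ (range N).image (fun j => 2 * j + π), (if p % 2 = π then X (p / 2) else 0) * g p := by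
    rw [Finset.sum_image]
    · refine Finset.sum_congr rfl fun j _ => ?_
      have e1 : (2 * j + π) % 2 = π := by omega
      have e2 : (2 * j + π) / 2 = j := by omega
      rw [e1, e2, if_pos rfl]
    · intro a _ b _ hab
      simp only at hab
      omega
  rw [h1]
  symm
  refine Finset.sum_subset ?_ ?_
  · intro p hp
    rw [Finset.mem_image] at hp
    obtain ⟨j, hj, rfl⟩ := hp
    rw [Finset.mem_range] at hj ⊢
    exact hN j hj
  · intro p _ hp
    split_ifs with hc
    · rw [hX, zero_mul]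
      by_contra hlt
      apply hp
      rw [Finset.mem_image]
      refine ⟨p / 2, by rw [Finset.mem_range]; omega, by omega⟩
    · rw [zero_mul]

/-- the coefficient function of a block vector -/
noncomputable def gam (N π : ℕ) (x : Fin N → ℝ) (p : ℕ) : ℝ :=
  if p % 2 = π then (if h : p / 2 < N then x ⟨p / 2, h⟩ else 0) else 0

lemma gam_sum {M N π : ℕ} (hπ : π < 2) (hN : ∀ j, j < N → 2 * j + π < M) (x : Fin N → ℝ)
    (g : ℕ → ℝ) :
    ∑ p ∈ range M, gam N π x p * g p = ∑ j : Fin N, x j * g (2 * j + π) := by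
  have h1 := sum_parity hπ hN (X := fun j => if h : j < N then x ⟨j, h⟩ else 0)
    (fun j hj => dif_neg (by omega)) g
  unfold gam
  rw [h1, Finset.sum_range]
  refine Finset.sum_congr rfl fun j _ => ?_
  simp

lemma gam_form {M N π : ℕ} (hπ : π < 2) (hN : ∀ j, j < N → 2 * j + π < M) (x : Fin N → ℝ)
    (f : ℕ → ℕ → ℝ) :
    ∑ p ∈ range M, ∑ q ∈ range M, gam N π x p * gam N π x q * f p q
      = ∑ j : Fin N, ∑ k : Fin N, x j * x k * f (2 * j + π) (2 * k + π) := by
  have h1 : ∀ p ∈ range M, ∑ q ∈ range M, gam N π x p * gam N π x q * f p q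
      = gam N π x p * ∑ q ∈ range M, gam N π x q * f p q := by
    intro p _
    rw [Finset.mul_sum]
    exact Finset.sum_congr rfl fun q _ => by ring
  rw [Finset.sum_congr rfl h1]
  rw [gam_sum hπ hN x (fun p => ∑ q ∈ range M, gam N π x q * f p q)]
  refine Finset.sum_congr rfl fun j _ => ?_
  rw [gam_sum hπ hN x (fun q => f (2 * j + π) q), Finset.mul_sum]
  exact Finset.sum_congr rfl fun k _ => by ring

lemma gam_parity {N π : ℕ} (x : Fin N → ℝ) (p : ℕ) (h : gam N π x p ≠ 0) : p % 2 = π := by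
  unfold gam at h
  by_contra hc
  rw [if_neg hc] at h
  exact h rfl

lemma gam_at {N π : ℕ} (hπ : π < 2) (x : Fin N → ℝ) (j : Fin N) :
    gam N π x (2 * j + π) = x j := by
  unfold gam
  have e1 : (2 * (j : ℕ) + π) % 2 = π := by omega
  have e2 : (2 * (j : ℕ) + π) / 2 = j := by omega
  rw [e1, if_pos rfl, dif_pos (by rw [e2]; exact j.2)]
  congr 1
  exact Fin.ext e2

lemma pd_block {w : α → ℝ} (hw : ∀ a, 0 < w a) {V : Finset α} {N π : ℕ} (hπ : π < 2)
    (hN : ∀ j, j < N → 2 * j + π < V.card) (x : Fin N → ℝ) (hx : x ≠ 0) :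
    0 < ∑ j : Fin N, ∑ k : Fin N, x j * x k * Eab w V (2 * j + π) (2 * k + π) := by
  obtain ⟨j, hj⟩ := Function.ne_iff.mp hx
  rw [← gam_form hπ hN x]
  refine Eab_form_pos hw (gam N π x) (hN j j.2) ?_
  rw [gam_at hπ]
  exact hj

/-- the inequality `L ≥ 0` of one replica -/
def OneReplica (w : α → ℝ) (V : Finset α) : Prop :=
  ∀ (γ : ℕ → ℝ) (π : ℕ), (∀ p, γ p ≠ 0 → p % 2 = π) →
    0 ≤ ∑ p ∈ range (V.card + 1), ∑ q ∈ range (V.card + 1), γ p * γ q *
      (esy w V p * esy w V (q + 1) * Eab w V p q + esy w V q * esy w V (p + 1) * Eab w V q p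
        - esy w V p * esy w V (p + 1) * esy w V q * esy w V (q + 1))

lemma acc_block {w : α → ℝ} (hw : ∀ a, 0 < w a) {V : Finset α} (hL : OneReplica w V)
    {N π : ℕ} (hπ : π < 2) (hN : ∀ j, j < N → 2 * j + π < V.card) (x : Fin N → ℝ) :
    0 ≤ ∑ j : Fin N, ∑ k : Fin N, (esy w V (2 * j + π) / esy w V (2 * j + π + 1)) * x j * x k *
      Eab w V (2 * j + π) (2 * k + π) := by
  have hpos : ∀ j : Fin N, 0 < esy w V (2 * j + π + 1) := fun j => esy_pos hw (hN j j.2)
  set y : Fin N → ℝ := fun j => x j / esy w V (2 * j + π + 1) with hy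
  have h1 := hL (gam N π y) π (gam_parity y)
  rw [gam_form hπ (fun j hj => by have := hN j hj; omega) y] at h1
  have h2 : ∑ j : Fin N, ∑ k : Fin N, y j * y k *
      (esy w V (2 * j + π) * esy w V (2 * k + π + 1) * Eab w V (2 * j + π) (2 * k + π)
        + esy w V (2 * k + π) * esy w V (2 * j + π + 1) * Eab w V (2 * k + π) (2 * j + π)
        - esy w V (2 * j + π) * esy w V (2 * j + π + 1) * esy w V (2 * k + π)
          * esy w V (2 * k + π + 1))
      = 2 * (∑ j : Fin N, ∑ k : Fin N, (esy w V (2 * j + π) / esy w V (2 * j + π + 1)) * x j * x k *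
      Eab w V (2 * j + π) (2 * k + π)) - (∑ j : Fin N, esy w V (2 * j + π) * x j) ^ 2 := by
    have h3 : ∀ j k : Fin N, y j * y k *
      (esy w V (2 * j + π) * esy w V (2 * k + π + 1) * Eab w V (2 * j + π) (2 * k + π)
        + esy w V (2 * k + π) * esy w V (2 * j + π + 1) * Eab w V (2 * k + π) (2 * j + π)
        - esy w V (2 * j + π) * esy w V (2 * j + π + 1) * esy w V (2 * k + π)
          * esy w V (2 * k + π + 1))
      = (esy w V (2 * j + π) / esy w V (2 * j + π + 1)) * x j * x k *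
          Eab w V (2 * j + π) (2 * k + π)
        + (esy w V (2 * k + π) / esy w V (2 * k + π + 1)) * x k * x j *
          Eab w V (2 * k + π) (2 * j + π)
        - (esy w V (2 * j + π) * x j) * (esy w V (2 * k + π) * x k) := by
      intro j k
      have hj := (hpos j).ne'
      have hk := (hpos k).ne'
      simp only [hy]
      field_simp
    simp only [h3, Finset.sum_sub_distrib, Finset.sum_add_distrib]
    rw [Finset.sum_comm (f := fun (j k : Fin N) => (esy w V (2 * (k : ℕ) + π) / esy w V (2 * (k : ℕ) + π + 1)) * x k * x j *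
          Eab w V (2 * (k : ℕ) + π) (2 * (j : ℕ) + π)), ← Finset.sum_mul_sum]
    ring
  rw [h2] at h1
  nlinarith [sq_nonneg (∑ j : Fin N, esy w V (2 * j + π) * x j)]

/-- THE DATA for one replica, from `L ≥ 0` -/
theorem rep_of_oneReplica {w : α → ℝ} (hw : ∀ a, 0 < w a) {V : Finset α}
    (hL : OneReplica w V) : Rep V.card (esy w V) (Eab w V) where
  hpos := fun p hp => esy_pos hw hp
  symm := Eab_symm w V
  top := Eab_top w V
  comp0 := fun q _ _ => Eab_zero w V q
  comp := fun p q _ _ h => Eab_comp w V (by omega)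
  acc := fun x => by
    have := acc_block hw hL (π := 0) (by norm_num) (N := (V.card + 1) / 2)
      (fun j hj => by omega) x
    simpa using this
  acc' := fun x => acc_block hw hL (π := 1) (by norm_num) (N := V.card / 2)
      (fun j hj => by omega) x
  pd := fun x hx => by
    have := pd_block hw (V := V) (π := 0) (by norm_num) (N := (V.card + 1) / 2)
      (fun j hj => by omega) x hx
    simpa using this
  pd' := fun x hx => pd_block hw (π := 1) (by norm_num) (N := V.card / 2)
      (fun j hj => by omega) x hx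

/-- ZERO SECTOR of the sections of `∏ (1 + w_i z)` with coefficients to the power `1 + θ` -/
theorem section_sector {w : α → ℝ} (hw : ∀ a, 0 < w a) {V : Finset α} (hV : 2 ≤ V.card)
    (hL : OneReplica w V) {m : ℕ} (hm : 1 ≤ m) {θ : ℝ} (hθ : |θ| ≤ ((1 : ℝ) / 2) ^ m) {z : ℂ}
    (hz : ∑ j ∈ range (V.card / 2 + 1), ((esy w V (2 * j) ^ (1 + θ) : ℝ) : ℂ) * z ^ j = 0 ∨
      ∑ k ∈ range ((V.card + 1) / 2), ((esy w V (2 * k + 1) ^ (1 + θ) : ℝ) : ℂ) * z ^ k = 0) :
    z ≠ 0 ∧ |(-z).arg| ≤ Real.pi / 2 ^ m :=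
  zero_sector hV (rep_of_oneReplica hw hL) hm hθ hz

end RFS53
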