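import Mathlib
import Pool.Agent.RFS53.ZeroSector

/-!
Zero sector for `∑ p_k a_k^θ z^k` from ANY metric of `∑ p_k z^k` in which `T = a_j / a_{j+1}` is
accretive (helper53): `p_k = h_{2k}`, `q_k = h_{2k+1}` a Hurwitz chain, `x`, `y` its even and odd
Bezoutian blocks.  `p = a^m` gives the zeros of `∑ a_k^{m+θ} z^k`.
-/

open Finset Complex

namespace RFS53

/-- a metric of `∑ p_k z^k` in which `T` is accretive -/
structure RepG (n : ℕ) (a p q : ℕ → ℝ) (x y : ℕ → ℕ → ℝ) : Prop where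
  hpos : ∀ k, k ≤ n → 0 < a k
  symm : ∀ j k, x j k = x k j
  symm' : ∀ j k, y j k = y k j
  top : ∀ k, x k n = 0
  comp0 : ∀ k, k < n → x k 0 = q k * p 0
  comp : ∀ i k, i < n → k < n → x k (i + 1) + y i k = q k * p (i + 1)
  acc : ∀ c : Fin n → ℝ, 0 ≤ ∑ j : Fin n, ∑ k : Fin n, (a j / a (j + 1)) * c j * c k * x j k
  pd : ∀ c : Fin n → ℝ, c ≠ 0 → 0 < ∑ j : Fin n, ∑ k : Fin n, c j * c k * x j k
  pd' : ∀ c : Fin n → ℝ, c ≠ 0 → 0 < ∑ j : Fin n, ∑ k : Fin n, c j * c k * y j k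

/-- ZERO SECTOR, general metric -/
theorem zero_sectorG {n : ℕ} {a p q : ℕ → ℝ} {x y : ℕ → ℕ → ℝ} (hn : 1 ≤ n)
    (R : RepG n a p q x y) {m : ℕ} (hm : 1 ≤ m) {θ : ℝ} (hθ : |θ| ≤ ((1 : ℝ) / 2) ^ m) {z : ℂ}
    (hz : ∑ j ∈ range (n + 1), ((p j * a j ^ θ : ℝ) : ℂ) * z ^ j = 0) :
    z ≠ 0 ∧ |(-z).arg| ≤ Real.pi / 2 ^ (m + 1) := by
  obtain ⟨hpos, symm, symm', top, comp0, comp, acc, pd, pd'⟩ := R
  set Bx : Fin n → Fin n → ℝ := fun j k => x j k with hBx
  set By : Fin n → Fin n → ℝ := fun j k => y j k with hBy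
  set T : Fin n → ℝ := fun j => a j / a (j + 1) with hT
  have hT0 : ∀ j, 0 < T j := fun j => div_pos (hpos _ (by omega)) (hpos _ (by omega))
  set v : Fin n → ℂ := fun j => z ^ (j : ℕ) * ((a j ^ θ : ℝ) : ℂ) with hv
  set u : Fin n → ℂ := fun j => z ^ (j : ℕ) * ((a (j + 1) ^ θ : ℝ) : ℂ) with hu
  have hv0 : v ≠ 0 := by
    intro h0
    have := congrFun h0 ⟨0, by omega⟩
    simp only [hv, pow_zero, one_mul, Pi.zero_apply, Complex.ofReal_eq_zero] at this
    exact (Real.rpow_pos_of_pos (hpos _ (by omega)) _).ne' this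
  have hu0 : u ≠ 0 := by
    intro h0
    have := congrFun h0 ⟨0, by omega⟩
    simp only [hu, pow_zero, one_mul, Pi.zero_apply, Complex.ofReal_eq_zero] at this
    exact (Real.rpow_pos_of_pos (hpos _ (by omega)) _).ne' this
  have hθ' : |(-θ)| ≤ ((1 : ℝ) / 2) ^ m := by rwa [abs_neg]
  have hE := sector_pow (B := Bx) (fun j k => symm _ _) (pd_of_real pd) hT0
    (accW_zero_of_real acc) hm hθ' hv0
  have hPD := pd_of_real (B := By) pd' u hu0
  have hIM := herm_im (B := By) (fun j k => symm' _ _) u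
  set P : ℂ := ∑ j, ∑ k, u j * (starRingEnd ℂ) (u k) * ((By j k : ℝ) : ℂ) with hP
  have hbal : (starRingEnd ℂ) (zeta Bx (fun j => T j ^ (-θ)) v) + z * P = 0 := by
    set g : ℕ → ℕ → ℂ := fun j k => z ^ j * (starRingEnd ℂ) (z ^ k) *
      ((a j ^ θ : ℝ) : ℂ) * ((a (k + 1) ^ θ : ℝ) : ℂ) with hg
    have hS : ∑ k ∈ range n, ∑ j ∈ range (n + 1),
        g j k * ((q k * p j : ℝ) : ℂ) = 0 := by
      have h1 : ∑ k ∈ range n, ∑ j ∈ range (n + 1),
          g j k * ((q k * p j : ℝ) : ℂ)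
          = (starRingEnd ℂ) (∑ k ∈ range n, ((q k * a (k + 1) ^ θ : ℝ) : ℂ) * z ^ k) *
            (∑ j ∈ range (n + 1), ((p j * a j ^ θ : ℝ) : ℂ) * z ^ j) := by
        rw [map_sum, Finset.sum_mul_sum]
        refine Finset.sum_congr rfl fun k hk => Finset.sum_congr rfl fun j hj => ?_
        rw [map_mul, Complex.conj_ofReal]
        simp only [hg]
        push_cast
        ring
      rw [h1, hz, mul_zero]
    have hsplit : ∀ k ∈ range n, ∑ j ∈ range (n + 1),
        g j k * ((q k * p j : ℝ) : ℂ)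
        = ∑ j ∈ range n, g j k * ((x k j : ℝ) : ℂ)
          + ∑ i ∈ range n, g (i + 1) k * ((y i k : ℝ) : ℂ) := by
      intro k hk
      rw [Finset.mem_range] at hk
      have h2 : ∑ j ∈ range n, g j k * ((x k j : ℝ) : ℂ)
          = ∑ j ∈ range (n + 1), g j k * ((x k j : ℝ) : ℂ) := by
        rw [Finset.sum_range_succ, top]
        simp
      rw [h2, Finset.sum_range_succ', Finset.sum_range_succ' (fun j => g j k *
        ((x k j : ℝ) : ℂ)), add_right_comm, ← Finset.sum_add_distrib]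
      congr 1
      · refine Finset.sum_congr rfl fun i hi => ?_
        rw [Finset.mem_range] at hi
        rw [← mul_add, ← Complex.ofReal_add, comp i k hi hk]
      · rw [comp0 k hk]
    rw [Finset.sum_congr rfl hsplit, Finset.sum_add_distrib] at hS
    have hpart1 : (starRingEnd ℂ) (zeta Bx (fun j => T j ^ (-θ)) v)
        = ∑ k ∈ range n, ∑ j ∈ range n, g j k * ((x k j : ℝ) : ℂ) := by
      rw [Finset.sum_range]
      unfold zeta
      rw [map_sum]
      refine Finset.sum_congr rfl fun k _ => ?_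
      rw [map_sum, Finset.sum_range]
      refine Finset.sum_congr rfl fun j _ => ?_
      have hk1 : 0 < a (k : ℕ) := hpos _ (by omega)
      have hk2 : 0 < a ((k : ℕ) + 1) := hpos _ (by omega)
      have h4 : T k ^ (-θ) * a k ^ θ = a (k + 1) ^ θ := by
        simp only [hT]
        rw [Real.rpow_neg (div_pos hk1 hk2).le, Real.div_rpow hk1.le hk2.le]
        have := (Real.rpow_pos_of_pos hk1 θ).ne'
        field_simp
      simp only [map_mul, Complex.conj_ofReal, Complex.conj_conj, hv, hg, hBx]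
      have h5 : ((T k ^ (-θ) : ℝ) : ℂ) * ((a k ^ θ : ℝ) : ℂ) = ((a (k + 1) ^ θ : ℝ) : ℂ) := by
        rw [← Complex.ofReal_mul, h4]
      rw [← h5]
      ring
    have hpart2 : z * P
        = ∑ k ∈ range n, ∑ i ∈ range n, g (i + 1) k * ((y i k : ℝ) : ℂ) := by
      rw [Finset.sum_comm, Finset.sum_range, hP, Finset.mul_sum]
      refine Finset.sum_congr rfl fun i _ => ?_
      rw [Finset.mul_sum, Finset.sum_range]
      refine Finset.sum_congr rfl fun k _ => ?_
      simp only [map_mul, Complex.conj_ofReal, hu, hg, hBy]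
      ring
    rw [hpart1, hpart2]
    exact hS
  have hz0 : z ≠ 0 := by
    rintro rfl
    rw [zero_mul, add_zero] at hbal
    exact hE.1 ((map_eq_zero _).mp hbal)
  refine ⟨hz0, ?_⟩
  have hPr : P = ((P.re : ℝ) : ℂ) := Complex.ext (by simp) (by simpa using hIM)
  have hzz : -z = ((P.re⁻¹ : ℝ) : ℂ) * (starRingEnd ℂ) (zeta Bx (fun j => T j ^ (-θ)) v) := by
    have hne : ((P.re : ℝ) : ℂ) ≠ 0 := by
      rw [Complex.ofReal_ne_zero]
      exact hPD.ne'
    rw [hPr] at hbal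
    rw [Complex.ofReal_inv]
    field_simp
    linear_combination -hbal
  rw [hzz, Complex.arg_real_mul _ (inv_pos.mpr hPD)]
  exact abs_arg_conj_le hE.2

end RFS53
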